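import Mathlib
import Pool.Agent.Run7.h489.NF.Near

set_option autoImplicit false
set_option linter.unusedSectionVars false

/-!
Products of linear forms on a line.
-/

namespace Pool.Agent.Run7.h489.GF

open Polynomial
open Pool.Agent.Run7.h489.NF (res_split)

section

variable {K : Type} [Field K] {n : ℕ}

/-- a linear form -/
noncomputable def lf {R : Type} [CommSemiring R] {n : ℕ} (L : Fin n → R) :
    MvPolynomial (Fin n) R := ∑ i, MvPolynomial.C (L i) * MvPolynomial.X i

theorem eval_lf (L z : Fin n → K) : MvPolynomial.eval z (lf L) = L ⬝ᵥ z := by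
  unfold lf dotProduct
  rw [map_sum]
  refine Finset.sum_congr rfl fun i _ => ?_
  rw [map_mul, MvPolynomial.eval_C, MvPolynomial.eval_X]

theorem map_lf {F : Type} [Field F] (φ : K →+* F) (L : Fin n → K) :
    MvPolynomial.map φ (lf L) = lf (fun i => φ (L i)) := by
  unfold lf
  rw [map_sum]
  refine Finset.sum_congr rfl fun i _ => ?_
  rw [map_mul, MvPolynomial.map_C, MvPolynomial.map_X]

/-- the restriction to the line `p + Y q` -/
noncomputable def ln (P : MvPolynomial (Fin n) K) (p q : Fin n → K) : K[X] :=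
  MvPolynomial.aeval (fun i => C (p i) + C (q i) * X) P

theorem ln_eval (P : MvPolynomial (Fin n) K) (p q : Fin n → K) (y : K) :
    (ln P p q).eval y = MvPolynomial.eval (fun i => p i + q i * y) P := by
  unfold ln
  induction P using MvPolynomial.induction_on with
  | C a => simp
  | add P Q hP hQ => rw [map_add, eval_add, hP, hQ, map_add]
  | mul_X P i hP =>
    rw [map_mul, eval_mul, hP, map_mul, MvPolynomial.aeval_X, MvPolynomial.eval_X, eval_add,
      eval_mul, eval_C, eval_C, eval_X]

/-- the derivative in the direction `x` on the line -/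
noncomputable def gr (P : MvPolynomial (Fin n) K) (p q x : Fin n → K) : K[X] :=
  ∑ i, C (x i) * ln (MvPolynomial.pderiv i P) p q

theorem gr_eval (P : MvPolynomial (Fin n) K) (p q x : Fin n → K) (y : K) :
    (gr P p q x).eval y =
      ∑ i, x i * MvPolynomial.eval (fun i => p i + q i * y) (MvPolynomial.pderiv i P) := by
  unfold gr
  rw [eval_finsetSum]
  refine Finset.sum_congr rfl fun i _ => ?_
  rw [eval_mul, eval_C, ln_eval]

theorem deriv_ln (P : MvPolynomial (Fin n) K) (p q : Fin n → K) :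
    derivative (ln P p q) = gr P p q q := by
  unfold gr ln
  induction P using MvPolynomial.induction_on with
  | C a => simp
  | add P Q hP hQ =>
    rw [map_add, derivative_add, hP, hQ, ← Finset.sum_add_distrib]
    refine Finset.sum_congr rfl fun i _ => ?_
    rw [map_add, map_add, mul_add]
  | mul_X P i hP =>
    rw [map_mul, derivative_mul, hP, MvPolynomial.aeval_X]
    simp only [MvPolynomial.pderiv_mul, map_add, map_mul, MvPolynomial.aeval_X]
    have h1 : ∑ j, C (q j) * (MvPolynomial.aeval (fun i => C (p i) + C (q i) * X)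
        (MvPolynomial.pderiv j P) * (C (p i) + C (q i) * X) +
        MvPolynomial.aeval (fun i => C (p i) + C (q i) * X) P *
          MvPolynomial.aeval (fun i => C (p i) + C (q i) * X)
            (MvPolynomial.pderiv j (MvPolynomial.X i : MvPolynomial (Fin n) K))) =
        (∑ j, C (q j) * MvPolynomial.aeval (fun i => C (p i) + C (q i) * X)
          (MvPolynomial.pderiv j P)) * (C (p i) + C (q i) * X) +
        MvPolynomial.aeval (fun i => C (p i) + C (q i) * X) P * C (q i) := by
      rw [Finset.sum_mul]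
      have h2 : MvPolynomial.aeval (fun i => C (p i) + C (q i) * X) P * C (q i) =
          ∑ j, C (q j) * (MvPolynomial.aeval (fun i => C (p i) + C (q i) * X) P *
          MvPolynomial.aeval (fun i => C (p i) + C (q i) * X)
            (MvPolynomial.pderiv j (MvPolynomial.X i : MvPolynomial (Fin n) K))) := by
        rw [Finset.sum_eq_single i]
        · rw [MvPolynomial.pderiv_X_self, map_one, mul_one, mul_comm]
        · intro j _ hj
          rw [MvPolynomial.pderiv_X_of_ne (Ne.symm hj), map_zero, mul_zero, mul_zero]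
        · intro h
          exact absurd (Finset.mem_univ _) h
      rw [h2, ← Finset.sum_add_distrib]
      refine Finset.sum_congr rfl fun j _ => ?_
      ring
    rw [h1]
    congr 1
    rw [derivative_C, zero_add, derivative_C_mul_X]

theorem ln_natDegree {P : MvPolynomial (Fin n) K} {N : ℕ} (hP : P.IsHomogeneous N)
    (p q : Fin n → K) : (ln P p q).natDegree ≤ N := by
  unfold ln
  rw [MvPolynomial.aeval_def, MvPolynomial.eval₂_eq']
  refine natDegree_sum_le_of_forall_le _ _ fun s hs => ?_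
  refine (natDegree_C_mul_le _ _).trans ?_
  refine (natDegree_prod_le _ _).trans ?_
  have h1 : ∑ i, s i = N := by
    have h2 := hP (MvPolynomial.mem_support_iff.1 hs)
    rw [Finsupp.weight_apply, Finsupp.sum_fintype _ _ (fun i => by simp)] at h2
    simpa using h2
  rw [← h1]
  refine Finset.sum_le_sum fun i _ => ?_
  refine natDegree_pow_le.trans ?_
  have h3 : (C (p i) + C (q i) * X).natDegree ≤ 1 := by
    refine (natDegree_add_le _ _).trans (max_le ?_ ?_)
    · rw [natDegree_C]
      exact Nat.zero_le _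
    · exact (natDegree_C_mul_le _ _).trans natDegree_X_le
  calc s i * (C (p i) + C (q i) * X).natDegree ≤ s i * 1 := Nat.mul_le_mul_left _ h3
    _ = s i := mul_one _

theorem gr_natDegree {P : MvPolynomial (Fin n) K} {N : ℕ} (hP : P.IsHomogeneous N)
    (p q x : Fin n → K) : (gr P p q x).natDegree ≤ N - 1 := by
  unfold gr
  refine natDegree_sum_le_of_forall_le _ _ fun i _ => ?_
  exact (natDegree_C_mul_le _ _).trans (ln_natDegree hP.pderiv p q)

theorem hom_prod_lf {N : ℕ} (L : Fin N → Fin n → K) : (∏ j, lf (L j)).IsHomogeneous N := by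
  have h1 : ∀ j ∈ (Finset.univ : Finset (Fin N)), (lf (L j)).IsHomogeneous 1 := by
    intro j _
    unfold lf
    refine MvPolynomial.IsHomogeneous.sum _ _ _ fun i _ => ?_
    have := (MvPolynomial.isHomogeneous_C (Fin n) (L j i)).mul (MvPolynomial.isHomogeneous_X K i)
    simpa using this
  have h2 := MvPolynomial.IsHomogeneous.prod Finset.univ (fun j => lf (L j)) (fun _ => 1) h1
  simpa using h2

theorem ln_lf (L p q : Fin n → K) : ln (lf L) p q = C (L ⬝ᵥ p) + C (L ⬝ᵥ q) * X := by
  unfold ln lf dotProduct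
  rw [map_sum, map_sum, map_sum, Finset.sum_mul, ← Finset.sum_add_distrib]
  refine Finset.sum_congr rfl fun i _ => ?_
  rw [map_mul, MvPolynomial.aeval_C, MvPolynomial.aeval_X, map_mul, map_mul]
  show C (L i) * _ = _
  ring

theorem ln_prod {N : ℕ} (L : Fin N → Fin n → K) (p q : Fin n → K) (hq : ∀ j, L j ⬝ᵥ q ≠ 0) :
    ln (∏ j, lf (L j)) p q =
      C (∏ j, L j ⬝ᵥ q) * ∏ j, (X - C (-(L j ⬝ᵥ p) / (L j ⬝ᵥ q))) := by
  have h1 : ln (∏ j, lf (L j)) p q = ∏ j, ln (lf (L j)) p q := by
    unfold ln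
    rw [map_prod]
  rw [h1, map_prod, ← Finset.prod_mul_distrib]
  refine Finset.prod_congr rfl fun j _ => ?_
  rw [ln_lf, mul_sub, ← C_mul, mul_div_cancel₀ _ (hq j), C_neg]
  ring

theorem pderiv_prod {N : ℕ} (L : Fin N → Fin n → K) (i : Fin n) (s : Finset (Fin N)) :
    MvPolynomial.pderiv i (∏ j ∈ s, lf (L j)) =
      ∑ j ∈ s, MvPolynomial.C (L j i) * ∏ k ∈ s.erase j, lf (L k) := by
  classical
  induction s using Finset.induction_on with
  | empty => simp
  | insert a s ha ih =>
    rw [Finset.prod_insert ha, MvPolynomial.pderiv_mul, ih, Finset.sum_insert ha,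
      Finset.erase_insert ha]
    have h1 : MvPolynomial.pderiv i (lf (L a)) = MvPolynomial.C (L a i) := by
      unfold lf
      rw [map_sum, Finset.sum_eq_single i]
      · rw [MvPolynomial.pderiv_C_mul, MvPolynomial.pderiv_X_self, mul_one]
      · intro j _ hj
        rw [MvPolynomial.pderiv_C_mul, MvPolynomial.pderiv_X_of_ne hj, mul_zero]
      · intro h
        exact absurd (Finset.mem_univ _) h
    rw [h1]
    congr 1
    rw [Finset.mul_sum]
    refine Finset.sum_congr rfl fun j hj => ?_
    have hja : a ≠ j := fun h => ha (h ▸ hj)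
    rw [Finset.erase_insert_of_ne hja, Finset.prod_insert (fun h => ha (Finset.mem_of_mem_erase h))]
    ring

/-- the gradient at a zero of one of the forms -/
theorem eval_pderiv {N : ℕ} (L : Fin N → Fin n → K) (i : Fin n) (z : Fin n → K) {j : Fin N}
    (hz : L j ⬝ᵥ z = 0) :
    MvPolynomial.eval z (MvPolynomial.pderiv i (∏ j, lf (L j))) =
      (∏ k ∈ Finset.univ.erase j, L k ⬝ᵥ z) * L j i := by
  classical
  rw [pderiv_prod, map_sum, Finset.sum_eq_single j]
  · rw [map_mul, MvPolynomial.eval_C, map_prod, mul_comm]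
    congr 1
    exact Finset.prod_congr rfl fun k _ => eval_lf _ _
  · intro k _ hk
    rw [map_mul, map_prod, Finset.prod_eq_zero (i := j)
      (Finset.mem_erase.2 ⟨Ne.symm hk, Finset.mem_univ _⟩) (by rw [eval_lf, hz]), mul_zero]
  · intro h
    exact absurd (Finset.mem_univ _) h

theorem dot_line (L p q : Fin n → K) (hq : L ⬝ᵥ q ≠ 0) :
    L ⬝ᵥ (fun i => p i + q i * (-(L ⬝ᵥ p) / (L ⬝ᵥ q))) = 0 := by
  have h1 : L ⬝ᵥ (fun i => p i + q i * (-(L ⬝ᵥ p) / (L ⬝ᵥ q))) =
      L ⬝ᵥ p + (L ⬝ᵥ q) * (-(L ⬝ᵥ p) / (L ⬝ᵥ q)) := by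
    unfold dotProduct
    rw [Finset.sum_mul, ← Finset.sum_add_distrib]
    refine Finset.sum_congr rfl fun i _ => ?_
    ring
  rw [h1]
  field_simp
  ring

/-- the identity of the resultants -/
theorem star_prod {N : ℕ} (L : Fin N → Fin n → K) (p q x : Fin n → K)
    (hq : MvPolynomial.eval q (∏ j, lf (L j)) ≠ 0) :
    MvPolynomial.eval q (∏ j, lf (L j)) *
      resultant (ln (∏ j, lf (L j)) p q) (gr (∏ j, lf (L j)) p q x) N (N - 1) =
    resultant (ln (∏ j, lf (L j)) p q) (derivative (ln (∏ j, lf (L j)) p q)) N (N - 1) *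
      MvPolynomial.eval x (∏ j, lf (L j)) := by
  have hq1 : MvPolynomial.eval q (∏ j, lf (L j)) = ∏ j, L j ⬝ᵥ q := by
    rw [map_prod]
    exact Finset.prod_congr rfl fun j _ => eval_lf _ _
  have hx1 : MvPolynomial.eval x (∏ j, lf (L j)) = ∏ j, L j ⬝ᵥ x := by
    rw [map_prod]
    exact Finset.prod_congr rfl fun j _ => eval_lf _ _
  have hqj : ∀ j, L j ⬝ᵥ q ≠ 0 := by
    intro j hj
    apply hq
    rw [hq1]
    exact Finset.prod_eq_zero (Finset.mem_univ j) hj
  have hP := hom_prod_lf L
  rw [deriv_ln]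
  obtain ⟨P, hPd⟩ : ∃ P, P = ∏ j, lf (L j) := ⟨_, rfl⟩
  obtain ⟨y, hy⟩ : ∃ y : Fin N → K, ∀ j, y j = -(L j ⬝ᵥ p) / (L j ⬝ᵥ q) := ⟨_, fun _ => rfl⟩
  have h1 : ln P p q = C (∏ j, L j ⬝ᵥ q) * ∏ j, (X - C (y j)) := by
    rw [hPd, ln_prod L p q hqj]
    simp only [hy]
  have h2 : ∀ z, (gr P p q z).natDegree ≤ N - 1 := fun z => by
    rw [hPd]
    exact gr_natDegree hP p q z
  have h3 : ∀ z, resultant (ln P p q) (gr P p q z) N (N - 1) =
      (∏ j, L j ⬝ᵥ q) ^ (N - 1) * ∏ j, (gr P p q z).eval (y j) := by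
    intro z
    rw [h1]
    exact res_split Finset.univ y _ (by rw [Finset.card_univ, Fintype.card_fin]) (h2 z)
  rw [← hPd, h3 x, h3 q, hPd, hq1, hx1, ← hPd]
  have h4 : (∏ j, L j ⬝ᵥ q) * ∏ j, (gr P p q x).eval (y j) =
      (∏ j, (gr P p q q).eval (y j)) * ∏ j, L j ⬝ᵥ x := by
    rw [← Finset.prod_mul_distrib, ← Finset.prod_mul_distrib]
    refine Finset.prod_congr rfl fun j _ => ?_
    have h5 : ∀ z : Fin n → K, (gr P p q z).eval (y j) =
        (∏ k ∈ Finset.univ.erase j, L k ⬝ᵥ (fun i => p i + q i * y j)) * (L j ⬝ᵥ z) := by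
      intro z
      rw [gr_eval]
      have h6 : L j ⬝ᵥ (fun i => p i + q i * y j) = 0 := by
        rw [hy]
        exact dot_line _ _ _ (hqj j)
      unfold dotProduct at h6 ⊢
      rw [Finset.mul_sum]
      refine Finset.sum_congr rfl fun i _ => ?_
      rw [hPd, eval_pderiv L i _ h6]
      unfold dotProduct
      ring
    rw [h5, h5]
    ring
  calc (∏ j, L j ⬝ᵥ q) * ((∏ j, L j ⬝ᵥ q) ^ (N - 1) * ∏ j, (gr P p q x).eval (y j)) =
        (∏ j, L j ⬝ᵥ q) ^ (N - 1) * ((∏ j, L j ⬝ᵥ q) * ∏ j, (gr P p q x).eval (y j)) := by ring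
    _ = _ := by
      rw [h4]
      ring

/-- the form is a product of linear forms over an extension field -/
def Spl (N : ℕ) (P : MvPolynomial (Fin n) K) : Prop :=
  ∃ L : Fin N → Fin n → AlgebraicClosure K,
    MvPolynomial.map (algebraMap K (AlgebraicClosure K)) P = ∏ j, lf (L j)

theorem ln_map {F : Type} [Field F] (φ : K →+* F) (P : MvPolynomial (Fin n) K) (p q : Fin n → K) :
    ln (MvPolynomial.map φ P) (fun i => φ (p i)) (fun i => φ (q i)) = (ln P p q).map φ := by
  unfold ln
  induction P using MvPolynomial.induction_on with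
  | C a => simp
  | add P Q hP hQ => rw [map_add, map_add, hP, hQ, map_add, Polynomial.map_add]
  | mul_X P i hP =>
    rw [map_mul, map_mul, hP, map_mul, Polynomial.map_mul, MvPolynomial.map_X,
      MvPolynomial.aeval_X, MvPolynomial.aeval_X]
    simp

theorem gr_map {F : Type} [Field F] (φ : K →+* F) (P : MvPolynomial (Fin n) K)
    (p q x : Fin n → K) :
    gr (MvPolynomial.map φ P) (fun i => φ (p i)) (fun i => φ (q i)) (fun i => φ (x i)) =
      (gr P p q x).map φ := by
  unfold gr
  rw [Polynomial.map_sum]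
  refine Finset.sum_congr rfl fun i _ => ?_
  rw [Polynomial.map_mul, map_C, MvPolynomial.pderiv_map, ln_map]

theorem star {F : Type} [Field F] (φ : K →+* F) {N : ℕ} {P : MvPolynomial (Fin n) K}
    {L : Fin N → Fin n → F} (hL : MvPolynomial.map φ P = ∏ j, lf (L j))
    (p q x : Fin n → K) (hq : MvPolynomial.eval q P ≠ 0) :
    MvPolynomial.eval q P * resultant (ln P p q) (gr P p q x) N (N - 1) =
    resultant (ln P p q) (derivative (ln P p q)) N (N - 1) * MvPolynomial.eval x P := by
  have hinj := φ.injective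
  have hev : ∀ z : Fin n → K, MvPolynomial.eval (fun i => φ (z i)) (MvPolynomial.map φ P) =
      φ (MvPolynomial.eval z P) := by
    intro z
    rw [MvPolynomial.eval_map]
    exact (MvPolynomial.eval₂_comp φ z P).symm
  have h1 := star_prod L (fun i => φ (p i)) (fun i => φ (q i)) (fun i => φ (x i)) (by
    rw [← hL, hev]
    exact fun h => hq ((map_eq_zero _).1 h))
  rw [← hL, hev, hev, ln_map, gr_map, Polynomial.derivative_map, Polynomial.resultant_map_map,
    Polynomial.resultant_map_map, ← map_mul, ← map_mul] at h1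
  exact hinj h1

theorem spl_smul {N : ℕ} (hN : 1 ≤ N) {P : MvPolynomial (Fin n) K} (h : Spl N P) (c : K) :
    Spl N (MvPolynomial.C c * P) := by
  classical
  obtain ⟨L, hL⟩ := h
  obtain ⟨N', rfl⟩ : ∃ N', N = N' + 1 := ⟨N - 1, by omega⟩
  refine ⟨Function.update L 0 (algebraMap K (AlgebraicClosure K) c • L 0), ?_⟩
  rw [map_mul, hL, MvPolynomial.map_C, Fin.prod_univ_succ, Fin.prod_univ_succ,
    Function.update_self]
  have h1 : lf (algebraMap K (AlgebraicClosure K) c • L 0) =
      MvPolynomial.C (algebraMap K (AlgebraicClosure K) c) * lf (L 0) := by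
    unfold lf
    rw [Finset.mul_sum]
    refine Finset.sum_congr rfl fun i _ => ?_
    rw [Pi.smul_apply, smul_eq_mul, map_mul, mul_assoc]
  rw [h1, mul_assoc]
  congr 2

end

end Pool.Agent.Run7.h489.GF
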