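import Mathlib
import Pool.Agent.Run7.h489.GF.Alg

set_option autoImplicit false
set_option linter.unusedSectionVars false

/-!
Selection of the smallest values of linear forms.
-/

namespace Pool.Agent.Run7.h489.GF

variable {K : Type} [Field K] {n : ℕ} {α : Type}

/-- the vectors `w a` are in general position, with the constant `C` -/
def IB (f : AbsoluteValue K ℝ) (w : α → Fin n → K) (C : ℝ) : Prop :=
  ∀ (e : Fin n ↪ α) (x : Fin n → K) (E : ℝ), (∀ i, f (w (e i) ⬝ᵥ x) ≤ E) → ∀ i, f (x i) ≤ C * E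

theorem IB.sel [Finite α] {f : AbsoluteValue K ℝ} {w : α → Fin n → K} {C : ℝ} (hC : 0 < C)
    (h : IB f w C) (hα : n ≤ Nat.card α) (hn : 0 < n) {x : Fin n → K}
    (hx : ∀ a, w a ⬝ᵥ x ≠ 0) :
    ∃ e : Fin n ↪ α, ∀ a ∉ Set.range e, ∀ i, x i ≠ 0 →
      Real.log (f (x i)) ≤ Real.log C + Real.log (f (w a ⬝ᵥ x)) := by
  classical
  have : Fintype α := Fintype.ofFinite α
  have hne : Nonempty (Fin n ↪ α) := Function.Embedding.nonempty_of_card_le (by
    rw [Fintype.card_fin, ← Nat.card_eq_fintype_card]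
    exact hα)
  obtain ⟨e, he⟩ := Finite.exists_min fun e : Fin n ↪ α => ∑ i, Real.log (f (w (e i) ⬝ᵥ x))
  refine ⟨e, fun a ha i hi => ?_⟩
  have hnn : Nonempty (Fin n) := ⟨⟨0, hn⟩⟩
  obtain ⟨j0, hj0⟩ := Finite.exists_max fun j => f (w (e j) ⬝ᵥ x)
  have h1 := h e x _ hj0 i
  have hinj : Function.Injective (Function.update (e : Fin n → α) j0 a) := by
    intro p q hpq
    by_cases hp : p = j0 <;> by_cases hq : q = j0
    · rw [hp, hq]
    · rw [hp, Function.update_self, Function.update_of_ne hq] at hpq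
      exact absurd ⟨q, hpq.symm⟩ ha
    · rw [hq, Function.update_self, Function.update_of_ne hp] at hpq
      exact absurd ⟨p, hpq⟩ ha
    · rw [Function.update_of_ne hp, Function.update_of_ne hq] at hpq
      exact e.injective hpq
  have h2 := he ⟨Function.update (e : Fin n → α) j0 a, hinj⟩
  have h3 : ∑ i, Real.log (f (w ((⟨Function.update (e : Fin n → α) j0 a, hinj⟩ : Fin n ↪ α) i)
      ⬝ᵥ x)) = Real.log (f (w a ⬝ᵥ x)) +
        ∑ i ∈ Finset.univ.erase j0, Real.log (f (w (e i) ⬝ᵥ x)) := by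
    rw [← Finset.add_sum_erase Finset.univ _ (Finset.mem_univ j0)]
    congr 1
    · show Real.log (f (w (Function.update (e : Fin n → α) j0 a j0) ⬝ᵥ x)) = _
      rw [Function.update_self]
    · refine Finset.sum_congr rfl fun i hi => ?_
      show Real.log (f (w (Function.update (e : Fin n → α) j0 a i) ⬝ᵥ x)) = _
      rw [Function.update_of_ne (Finset.ne_of_mem_erase hi)]
  rw [h3, ← Finset.add_sum_erase Finset.univ _ (Finset.mem_univ j0)] at h2
  have h4 : Real.log (f (x i)) ≤ Real.log (C * f (w (e j0) ⬝ᵥ x)) :=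
    Real.log_le_log (f.pos hi) h1
  rw [Real.log_mul hC.ne' (f.ne_zero (hx _))] at h4
  linarith

theorem dot_le (f : AbsoluteValue K ℝ) (a x : Fin n → K) {A X : ℝ} (hA : ∀ i, f (a i) ≤ A)
    (hX : ∀ i, f (x i) ≤ X) : f (a ⬝ᵥ x) ≤ n * (A * X) := by
  unfold dotProduct
  refine (f.sum_le _ _).trans ?_
  have h1 : ∀ i ∈ (Finset.univ : Finset (Fin n)), f (a i * x i) ≤ A * X := by
    intro i _
    rw [map_mul]
    exact mul_le_mul (hA i) (hX i) (f.nonneg _) ((f.nonneg _).trans (hA i))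
  refine (Finset.sum_le_sum h1).trans ?_
  rw [Finset.sum_const, Finset.card_univ, Fintype.card_fin, nsmul_eq_mul]

/-- nearby vectors -/
theorem IB.near {f : AbsoluteValue K ℝ} {w w' : α → Fin n → K} {C : ℝ}
    (h : IB f w C) {η : ℝ} (hη : ∀ a i, f (w' a i - w a i) ≤ η) (hn : 0 < n)
    (hs : C * (n * η) ≤ 1 / 2) : IB f w' (2 * C) := by
  intro e x E hE
  have hnn : Nonempty (Fin n) := ⟨⟨0, hn⟩⟩
  obtain ⟨i0, hi0⟩ := Finite.exists_max fun j => f (x j)
  have h1 : ∀ i, f (w (e i) ⬝ᵥ x) ≤ E + n * (η * f (x i0)) := by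
    intro i
    have h2 : w (e i) ⬝ᵥ x = w' (e i) ⬝ᵥ x - (fun l => w' (e i) l - w (e i) l) ⬝ᵥ x := by
      unfold dotProduct
      rw [← Finset.sum_sub_distrib]
      exact Finset.sum_congr rfl fun l _ => by ring
    rw [h2]
    refine (f.sub_le_add _ _).trans (add_le_add (hE i) ?_)
    exact dot_le f _ _ (fun l => hη (e i) l) hi0
  have h2 := h e x _ h1 i0
  have h3 : C * (E + n * (η * f (x i0))) = C * E + C * (n * η) * f (x i0) := by ring
  rw [h3] at h2
  have h4 : C * (n * η) * f (x i0) ≤ 1 / 2 * f (x i0) :=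
    mul_le_mul_of_nonneg_right hs (f.nonneg _)
  intro i
  refine (hi0 i).trans ?_
  linarith

/-- independent vectors -/
theorem exists_IB (f : AbsoluteValue K ℝ) [Finite α] (w : α → Fin n → K)
    (h : ∀ e : Fin n ↪ α, LinearIndependent K fun i => w (e i)) :
    ∃ C : ℝ, 0 < C ∧ IB f w C := by
  classical
  have h1 : ∀ e : Fin n ↪ α, ∃ C : ℝ, 0 < C ∧ ∀ (x : Fin n → K) (E : ℝ),
      (∀ i, f (w (e i) ⬝ᵥ x) ≤ E) → ∀ i, f (x i) ≤ C * E := by
    intro e
    obtain ⟨M, hM⟩ : ∃ M : Matrix (Fin n) (Fin n) K, M = Matrix.of fun i => w (e i) := ⟨_, rfl⟩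
    have hdet : IsUnit M.det := by
      rw [← Matrix.isUnit_iff_isUnit_det, ← Matrix.linearIndependent_rows_iff_isUnit, hM]
      exact h e
    refine ⟨1 + ∑ i, ∑ j, f (M⁻¹ i j), ?_, ?_⟩
    · have : 0 ≤ ∑ i, ∑ j, f (M⁻¹ i j) :=
        Finset.sum_nonneg fun _ _ => Finset.sum_nonneg fun _ _ => f.nonneg _
      linarith
    intro x E hE i
    have h2 : x = M⁻¹.mulVec (M.mulVec x) := by
      rw [Matrix.mulVec_mulVec, Matrix.nonsing_inv_mul _ hdet, Matrix.one_mulVec]
    have hE0 : 0 ≤ E := (f.nonneg _).trans (hE i)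
    have h3 : f (x i) ≤ ∑ j, f (M⁻¹ i j) * E := by
      rw [congrFun h2 i]
      show f (∑ j, M⁻¹ i j * M.mulVec x j) ≤ _
      refine (f.sum_le _ _).trans (Finset.sum_le_sum fun j _ => ?_)
      rw [map_mul]
      refine mul_le_mul_of_nonneg_left ?_ (f.nonneg _)
      have h4 : M.mulVec x j = w (e j) ⬝ᵥ x := by rw [hM]; rfl
      rw [h4]
      exact hE j
    rw [← Finset.sum_mul] at h3
    refine h3.trans (mul_le_mul_of_nonneg_right ?_ hE0)
    have h5 := Finset.single_le_sum (f := fun i => ∑ j, f (M⁻¹ i j))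
      (fun _ _ => Finset.sum_nonneg fun _ _ => f.nonneg _) (Finset.mem_univ i)
    linarith
  choose C hC0 hC using h1
  rcases isEmpty_or_nonempty (Fin n ↪ α) with he | he
  · exact ⟨1, one_pos, fun e => (he.false e).elim⟩
  · obtain ⟨e0, he0⟩ := Finite.exists_max C
    refine ⟨C e0, hC0 e0, fun e x E hE i => (hC e x E hE i).trans ?_⟩
    exact mul_le_mul_of_nonneg_right (he0 e) ((f.nonneg _).trans (hE i))

/-- the determinants are not small -/
theorem IB.det {f : AbsoluteValue K ℝ} {w : α → Fin n → K} {C : ℝ}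
    (h : IB f w C) (e : Fin n ↪ α) :
    1 ≤ n.factorial * C ^ n * f (Matrix.of fun i => w (e i)).det := by
  classical
  obtain ⟨M, hM⟩ : ∃ M : Matrix (Fin n) (Fin n) K, M = Matrix.of fun i => w (e i) := ⟨_, rfl⟩
  rw [← hM]
  have hmv : ∀ (x : Fin n → K) i, M.mulVec x i = w (e i) ⬝ᵥ x := fun x i => by rw [hM]; rfl
  have hunit : IsUnit M := by
    rw [Matrix.isUnit_iff_isUnit_det, isUnit_iff_ne_zero]
    intro h0
    obtain ⟨v, hv, hMv⟩ := Matrix.exists_mulVec_eq_zero_iff.2 h0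
    apply hv
    funext i
    have h1 := h e v 0 (fun j => by rw [← hmv, hMv, Pi.zero_apply, map_zero]) i
    rw [mul_zero] at h1
    exact (f.eq_zero).1 (le_antisymm h1 (f.nonneg _))
  have hdet : IsUnit M.det := (Matrix.isUnit_iff_isUnit_det _).1 hunit
  have h1 : ∀ i j, f (M⁻¹ i j) ≤ C := by
    intro i j
    have h2 := h e (fun l => M⁻¹ l j) 1 (fun l => by
      rw [← hmv]
      have h3 : M.mulVec (fun l => M⁻¹ l j) l = (M * M⁻¹) l j := rfl
      rw [h3, Matrix.mul_nonsing_inv _ hdet, Matrix.one_apply]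
      split_ifs
      · rw [map_one]
      · rw [map_zero]
        exact zero_le_one) i
    rwa [mul_one] at h2
  have h2 := Matrix.det_le (abv := f) h1
  rw [Fintype.card_fin, nsmul_eq_mul] at h2
  have h3 : M.det * M⁻¹.det = 1 := by
    rw [← Matrix.det_mul, Matrix.mul_nonsing_inv _ hdet, Matrix.det_one]
  have h4 : f M.det * f M⁻¹.det = 1 := by rw [← map_mul, h3, map_one]
  calc (1 : ℝ) = f M.det * f M⁻¹.det := h4.symm
    _ ≤ f M.det * (n.factorial * C ^ n) := mul_le_mul_of_nonneg_left h2 (f.nonneg _)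
    _ = _ := by ring

end Pool.Agent.Run7.h489.GF
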