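import Mathlib
import Pool.Agent.Run7.h489.TM.Lau
import Pool.Agent.Run7.h489.GF.Sel

set_option autoImplicit false
set_option linter.unusedSectionVars false

/-!
Forms with coefficients which are Laurent polynomials, near to a vertex.
-/

namespace Pool.Agent.Run7.h489.GF

open Polynomial
open Pool.Agent.Run7.h489.TM
open Pool.Agent.Run7.h489.NF (newt_val near_res node eval_le prod_sub_le deriv_ne)

variable {K : Type} [Field K] {m n : ℕ}

/-- the form `u^{-μ} R(u, x)` -/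
noncomputable def Rv (R : (Fin m → ℤ) →₀ MvPolynomial (Fin n) K) (μ : Fin m → ℤ) (u : Fin m → K) :
    MvPolynomial (Fin n) K := ∑ a ∈ R.support, MvPolynomial.C (mono u (a - μ)) * R a

theorem phi_Rv (φ : MvPolynomial (Fin n) K →ₗ[K] K) (R : (Fin m → ℤ) →₀ MvPolynomial (Fin n) K)
    (μ : Fin m → ℤ) (u : Fin m → K) :
    φ (Rv R μ u) = ∑ a ∈ R.support, mono u (a - μ) * φ (R a) := by
  unfold Rv
  rw [map_sum]
  refine Finset.sum_congr rfl fun a _ => ?_
  rw [← MvPolynomial.smul_eq_C_mul, map_smul, smul_eq_mul]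

theorem phi_sub (f : AbsoluteValue K ℝ) (φ : MvPolynomial (Fin n) K →ₗ[K] K)
    (R : (Fin m → ℤ) →₀ MvPolynomial (Fin n) K) (μ : Fin m → ℤ) (u : Fin m → K) {ρ : ℝ}
    (hρ0 : 0 ≤ ρ) (hρ : ∀ a ∈ R.support, a ≠ μ → f (mono u (a - μ)) ≤ ρ) :
    f (φ (Rv R μ u) - φ (R μ)) ≤ (∑ a ∈ R.support, f (φ (R a))) * ρ := by
  classical
  have h1 : φ (R μ) = ∑ a ∈ R.support, if a = μ then φ (R a) else 0 := by
    by_cases h : μ ∈ R.support
    · rw [Finset.sum_ite_eq' R.support μ, if_pos h]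
    · rw [Finset.sum_eq_zero, Finsupp.notMem_support_iff.1 h, map_zero]
      intro a ha
      rw [if_neg]
      rintro rfl
      exact h ha
  rw [phi_Rv, h1, ← Finset.sum_sub_distrib, Finset.sum_mul]
  refine (f.sum_le _ _).trans (Finset.sum_le_sum fun a ha => ?_)
  by_cases h : a = μ
  · rw [if_pos h, h, sub_self, mono_zero, one_mul, sub_self, map_zero]
    exact mul_nonneg (f.nonneg _) hρ0
  · rw [if_neg h, sub_zero, map_mul, mul_comm]
    exact mul_le_mul_of_nonneg_left (hρ a ha h) (f.nonneg _)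

theorem phi_le (f : AbsoluteValue K ℝ) (φ : MvPolynomial (Fin n) K →ₗ[K] K)
    (R : (Fin m → ℤ) →₀ MvPolynomial (Fin n) K) (μ : Fin m → ℤ) (u : Fin m → K) {ρ : ℝ}
    (hρ1 : ρ ≤ 1) (hρ : ∀ a ∈ R.support, a ≠ μ → f (mono u (a - μ)) ≤ ρ) :
    f (φ (Rv R μ u)) ≤ ∑ a ∈ R.support, f (φ (R a)) := by
  rw [phi_Rv]
  refine (f.sum_le _ _).trans (Finset.sum_le_sum fun a ha => ?_)
  rw [map_mul]
  refine mul_le_of_le_one_left (f.nonneg _) ?_
  by_cases h : a = μ
  · rw [h, sub_self, mono_zero, map_one]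
  · exact (hρ a ha h).trans hρ1

/-- the coefficient of the restriction to the line -/
noncomputable def lnc (p q : Fin n → K) (j : ℕ) : MvPolynomial (Fin n) K →ₗ[K] K :=
  (lcoeff K j).comp (MvPolynomial.aeval (fun i => C (p i) + C (q i) * X)).toLinearMap

theorem lnc_apply (p q : Fin n → K) (j : ℕ) (P : MvPolynomial (Fin n) K) :
    lnc p q j P = (ln P p q).coeff j := rfl

/-- the coefficient of a derivative on the line -/
noncomputable def pnc (p q : Fin n → K) (i : Fin n) (j : ℕ) : MvPolynomial (Fin n) K →ₗ[K] K :=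
  (lnc p q j).comp (MvPolynomial.pderiv i).toLinearMap

theorem pnc_apply (p q : Fin n → K) (i : Fin n) (j : ℕ) (P : MvPolynomial (Fin n) K) :
    pnc p q i j P = (ln (MvPolynomial.pderiv i P) p q).coeff j := rfl

/-- the value at a point -/
noncomputable def evc (z : Fin n → K) : MvPolynomial (Fin n) K →ₗ[K] K :=
  (MvPolynomial.aeval z).toLinearMap

theorem evc_apply (z : Fin n → K) (P : MvPolynomial (Fin n) K) :
    evc z P = MvPolynomial.eval z P := rfl

theorem hom_Rv {R : (Fin m → ℤ) →₀ MvPolynomial (Fin n) K} {N : ℕ}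
    (hR : ∀ a, (R a).IsHomogeneous N) (μ : Fin m → ℤ) (u : Fin m → K) :
    (Rv R μ u).IsHomogeneous N := by
  unfold Rv
  refine MvPolynomial.IsHomogeneous.sum _ _ _ fun a _ => ?_
  have := (MvPolynomial.isHomogeneous_C (Fin n) (mono u (a - μ))).mul (hR a)
  simpa using this

/-- uniform bounds -/
theorem unif (f : AbsoluteValue K ℝ) {R : (Fin m → ℤ) →₀ MvPolynomial (Fin n) K} {N : ℕ}
    (hR : ∀ a, (R a).IsHomogeneous N) (μ : Fin m → ℤ) (p q : Fin n → K) :
    ∃ M : ℝ, 0 ≤ M ∧ ∀ (u : Fin m → K) (ρ : ℝ), 0 ≤ ρ → ρ ≤ 1 →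
      (∀ a ∈ R.support, a ≠ μ → f (mono u (a - μ)) ≤ ρ) →
      (∀ j, f ((ln (Rv R μ u) p q).coeff j - (ln (R μ) p q).coeff j) ≤ M * ρ) ∧
      (∀ j, f ((ln (Rv R μ u) p q).coeff j) ≤ M) ∧
      (∀ i j, f ((ln (MvPolynomial.pderiv i (Rv R μ u)) p q).coeff j -
        (ln (MvPolynomial.pderiv i (R μ)) p q).coeff j) ≤ M * ρ) ∧
      (∀ i j, f ((ln (MvPolynomial.pderiv i (Rv R μ u)) p q).coeff j) ≤ M) ∧
      (∀ i j, f ((ln (MvPolynomial.pderiv i (R μ)) p q).coeff j) ≤ M) ∧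
      f (MvPolynomial.eval q (Rv R μ u) - MvPolynomial.eval q (R μ)) ≤ M * ρ := by
  obtain ⟨M1, hM1⟩ : ∃ M1 : ℝ, M1 = ∑ j ∈ Finset.range (N + 1),
    ∑ a ∈ R.support, f (lnc p q j (R a)) := ⟨_, rfl⟩
  obtain ⟨M2, hM2⟩ : ∃ M2 : ℝ, M2 = ∑ i, ∑ j ∈ Finset.range (N + 1),
    ∑ a ∈ R.support, f (pnc p q i j (R a)) := ⟨_, rfl⟩
  obtain ⟨M3, hM3⟩ : ∃ M3 : ℝ, M3 = ∑ a ∈ R.support, f (evc q (R a)) := ⟨_, rfl⟩
  obtain ⟨M4, hM4⟩ : ∃ M4 : ℝ, M4 = ∑ i, ∑ j ∈ Finset.range (N + 1), f (pnc p q i j (R μ)) :=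
    ⟨_, rfl⟩
  have h10 : 0 ≤ M1 := by
    rw [hM1]
    exact Finset.sum_nonneg fun _ _ => Finset.sum_nonneg fun _ _ => f.nonneg _
  have h20 : 0 ≤ M2 := by
    rw [hM2]
    exact Finset.sum_nonneg fun _ _ => Finset.sum_nonneg fun _ _ =>
      Finset.sum_nonneg fun _ _ => f.nonneg _
  have h30 : 0 ≤ M3 := by
    rw [hM3]
    exact Finset.sum_nonneg fun _ _ => f.nonneg _
  have h40 : 0 ≤ M4 := by
    rw [hM4]
    exact Finset.sum_nonneg fun _ _ => Finset.sum_nonneg fun _ _ => f.nonneg _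
  have hle1 : ∀ j ≤ N, ∑ a ∈ R.support, f (lnc p q j (R a)) ≤ M1 := by
    intro j hj
    rw [hM1]
    exact Finset.single_le_sum (f := fun j => ∑ a ∈ R.support, f (lnc p q j (R a)))
      (fun _ _ => Finset.sum_nonneg fun _ _ => f.nonneg _) (Finset.mem_range.2 (by omega))
  have hle2 : ∀ i, ∀ j ≤ N, ∑ a ∈ R.support, f (pnc p q i j (R a)) ≤ M2 := by
    intro i j hj
    rw [hM2]
    refine (Finset.single_le_sum (f := fun j => ∑ a ∈ R.support, f (pnc p q i j (R a)))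
      (fun _ _ => Finset.sum_nonneg fun _ _ => f.nonneg _) (Finset.mem_range.2
        (by omega : j < N + 1))).trans ?_
    exact Finset.single_le_sum (f := fun i => ∑ j ∈ Finset.range (N + 1),
      ∑ a ∈ R.support, f (pnc p q i j (R a)))
      (fun _ _ => Finset.sum_nonneg fun _ _ => Finset.sum_nonneg fun _ _ => f.nonneg _)
      (Finset.mem_univ i)
  have hle4 : ∀ i, ∀ j ≤ N, f (pnc p q i j (R μ)) ≤ M4 := by
    intro i j hj
    rw [hM4]
    refine (Finset.single_le_sum (f := fun j => f (pnc p q i j (R μ)))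
      (fun _ _ => f.nonneg _) (Finset.mem_range.2 (by omega : j < N + 1))).trans ?_
    exact Finset.single_le_sum (f := fun i => ∑ j ∈ Finset.range (N + 1), f (pnc p q i j (R μ)))
      (fun _ _ => Finset.sum_nonneg fun _ _ => f.nonneg _) (Finset.mem_univ i)
  have hz : ∀ P : MvPolynomial (Fin n) K, P.IsHomogeneous N → ∀ j, ¬ j ≤ N →
      (ln P p q).coeff j = 0 := fun P hP j hj =>
    coeff_eq_zero_of_natDegree_lt (lt_of_le_of_lt (ln_natDegree hP p q) (by omega))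
  have hz' : ∀ P : MvPolynomial (Fin n) K, P.IsHomogeneous N → ∀ i j, ¬ j ≤ N →
      (ln (MvPolynomial.pderiv i P) p q).coeff j = 0 := fun P hP i j hj =>
    coeff_eq_zero_of_natDegree_lt (lt_of_le_of_lt (ln_natDegree hP.pderiv p q) (by omega))
  refine ⟨M1 + M2 + M3 + M4, by positivity, fun u ρ hρ0 hρ1 hρ => ?_⟩
  have hhom := hom_Rv hR μ u
  have hMρ : ∀ M', M' ≤ M1 + M2 + M3 + M4 → M' * ρ ≤ (M1 + M2 + M3 + M4) * ρ := fun M' h =>
    mul_le_mul_of_nonneg_right h hρ0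
  refine ⟨fun j => ?_, fun j => ?_, fun i j => ?_, fun i j => ?_, fun i j => ?_, ?_⟩
  · by_cases hj : j ≤ N
    · exact (phi_sub f (lnc p q j) R μ u hρ0 hρ).trans (hMρ _ ((hle1 j hj).trans (by linarith)))
    · rw [hz _ hhom j hj, hz _ (hR μ) j hj, sub_self, map_zero]
      positivity
  · by_cases hj : j ≤ N
    · exact (phi_le f (lnc p q j) R μ u hρ1 hρ).trans ((hle1 j hj).trans (by linarith))
    · rw [hz _ hhom j hj, map_zero]
      positivity
  · by_cases hj : j ≤ N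
    · exact (phi_sub f (pnc p q i j) R μ u hρ0 hρ).trans
        (hMρ _ ((hle2 i j hj).trans (by linarith)))
    · rw [hz' _ hhom i j hj, hz' _ (hR μ) i j hj, sub_self, map_zero]
      positivity
  · by_cases hj : j ≤ N
    · exact (phi_le f (pnc p q i j) R μ u hρ1 hρ).trans ((hle2 i j hj).trans (by linarith))
    · rw [hz' _ hhom i j hj, map_zero]
      positivity
  · by_cases hj : j ≤ N
    · exact (hle4 i j hj).trans (by linarith)
    · rw [hz' _ (hR μ) i j hj, map_zero]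
      positivity
  · refine (phi_sub f (evc q) R μ u hρ0 hρ).trans (hMρ _ ?_)
    rw [← hM3]
    linarith

theorem lip_eval (f : AbsoluteValue K ℝ) {G : K[X]} {N : ℕ} (hG : G.natDegree ≤ N) {B Y : ℝ}
    (hY : 1 ≤ Y) (hB : ∀ j, f (G.coeff j) ≤ B) {a b : K} (ha : f a ≤ Y) (hb : f b ≤ Y) :
    f (G.eval a - G.eval b) ≤ (N + 1) * (B * (N * f (a - b) * Y ^ N)) := by
  have hB0 : 0 ≤ B := (f.nonneg _).trans (hB 0)
  rw [eval_eq_sum_range' (Nat.lt_succ_of_le hG), eval_eq_sum_range' (Nat.lt_succ_of_le hG),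
    ← Finset.sum_sub_distrib]
  refine (f.sum_le _ _).trans ?_
  have h1 : ∀ i ∈ Finset.range (N + 1), f (G.coeff i * a ^ i - G.coeff i * b ^ i) ≤
      B * (N * f (a - b) * Y ^ N) := by
    intro i hi
    rw [← mul_sub, map_mul]
    refine mul_le_mul (hB i) ?_ (f.nonneg _) hB0
    have h2 := prod_sub_le f (Finset.range i) (fun _ => a) (fun _ => b) (fun _ => Y)
      (f.nonneg (a - b)) (fun _ _ => ha) (fun _ _ => hb)
      (fun _ _ => le_mul_of_one_le_right (f.nonneg _) hY)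
    rw [Finset.prod_const, Finset.prod_const, Finset.prod_const, Finset.card_range] at h2
    refine h2.trans ?_
    rw [Finset.mem_range] at hi
    have h3 : (i : ℝ) ≤ N := by exact_mod_cast (by omega : i ≤ N)
    have h4 : Y ^ i ≤ Y ^ N := pow_le_pow_right₀ hY (by omega)
    have h5 : 0 ≤ f (a - b) := f.nonneg _
    have h6 : (0 : ℝ) ≤ Y ^ i := by positivity
    exact mul_le_mul (mul_le_mul_of_nonneg_right h3 h5) h4 h6 (by positivity)
  refine (Finset.sum_le_sum h1).trans ?_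
  rw [Finset.sum_const, Finset.card_range, nsmul_eq_mul]
  push_cast
  exact le_rfl

/-- the exact zeros at the vertex -/
noncomputable def yz {N : ℕ} (L : Fin N → Fin n → K) (p q : Fin n → K) (j : Fin N) : K :=
  -(L j ⬝ᵥ p) / (L j ⬝ᵥ q)

/-- the approximate zeros -/
noncomputable def yv (R : (Fin m → ℤ) →₀ MvPolynomial (Fin n) K) (μ : Fin m → ℤ) {N : ℕ}
    (L : Fin N → Fin n → K) (p q : Fin n → K) (T : ℕ) (u : Fin m → K) (j : Fin N) : K :=
  newt (ln (Rv R μ u) p q) ((ln (R μ) p q).derivative.eval (yz L p q j)) (yz L p q j) T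

/-- the approximate linear factors -/
noncomputable def wv (R : (Fin m → ℤ) →₀ MvPolynomial (Fin n) K) (μ : Fin m → ℤ) {N : ℕ}
    (L : Fin N → Fin n → K) (p q : Fin n → K) (T : ℕ) (u : Fin m → K) (j : Fin N) : Fin n → K :=
  fun i => (ln (MvPolynomial.pderiv i (Rv R μ u)) p q).eval (yv R μ L p q T u j)

/-- the linear factors at the vertex -/
noncomputable def w0 (R : (Fin m → ℤ) →₀ MvPolynomial (Fin n) K) (μ : Fin m → ℤ) {N : ℕ}
    (L : Fin N → Fin n → K) (p q : Fin n → K) (j : Fin N) : Fin n → K :=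
  fun i => (ln (MvPolynomial.pderiv i (R μ)) p q).eval (yz L p q j)

theorem wv_dot (R : (Fin m → ℤ) →₀ MvPolynomial (Fin n) K) (μ : Fin m → ℤ) {N : ℕ}
    (L : Fin N → Fin n → K) (p q : Fin n → K) (T : ℕ) (u : Fin m → K) (j : Fin N)
    (x : Fin n → K) :
    (gr (Rv R μ u) p q x).eval (yv R μ L p q T u j) = wv R μ L p q T u j ⬝ᵥ x := by
  unfold gr wv dotProduct
  rw [eval_finsetSum]
  refine Finset.sum_congr rfl fun i _ => ?_
  rw [eval_mul, eval_C, mul_comm]

theorem w0_indep {R : (Fin m → ℤ) →₀ MvPolynomial (Fin n) K} {μ : Fin m → ℤ} {N : ℕ}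
    {L : Fin N → Fin n → K} (hL : R μ = ∏ j, lf (L j)) {p q : Fin n → K}
    (hq : ∀ j, L j ⬝ᵥ q ≠ 0) (hpq : Function.Injective (yz L p q))
    (hgen : ∀ e : Fin n ↪ Fin N, LinearIndependent K fun i => L (e i)) (e : Fin n ↪ Fin N) :
    LinearIndependent K fun i => w0 R μ L p q (e i) := by
  have h1 : ∀ j, ∃ c : K, c ≠ 0 ∧ w0 R μ L p q j = c • L j := by
    intro j
    have h2 : L j ⬝ᵥ (fun i => p i + q i * yz L p q j) = 0 := dot_line _ _ _ (hq j)
    refine ⟨∏ k ∈ Finset.univ.erase j, L k ⬝ᵥ (fun i => p i + q i * yz L p q j), ?_, ?_⟩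
    · rw [Finset.prod_ne_zero_iff]
      intro k hk h0
      have h3 : L k ⬝ᵥ (fun i => p i + q i * yz L p q j) =
          L k ⬝ᵥ p + (L k ⬝ᵥ q) * yz L p q j := by
        unfold dotProduct
        rw [Finset.sum_mul, ← Finset.sum_add_distrib]
        refine Finset.sum_congr rfl fun i _ => ?_
        ring
      rw [h3] at h0
      apply Finset.ne_of_mem_erase hk
      apply hpq
      have h4 := hq k
      show -(L k ⬝ᵥ p) / (L k ⬝ᵥ q) = _
      rw [div_eq_iff h4]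
      linear_combination -h0
    · funext i
      unfold w0
      rw [ln_eval, hL, eval_pderiv L i _ h2, Pi.smul_apply, smul_eq_mul]
  choose c hc0 hc using h1
  have h2 : (fun i => w0 R μ L p q (e i)) = fun i => Units.mk0 (c (e i)) (hc0 _) • L (e i) := by
    funext i
    rw [hc]
    rfl
  rw [h2]
  exact (hgen e).units_smul _

end Pool.Agent.Run7.h489.GF
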