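import Mathlib
import Pool.Agent.Run7.h489.GF.Loc

set_option autoImplicit false
set_option linter.unusedSectionVars false

/-!
The local inequality near to a vertex.
-/

namespace Pool.Agent.Run7.h489.GF

open Polynomial
open Pool.Agent.Run7.h489.TM
open Pool.Agent.Run7.h489.NF (newt_val near_res node eval_le prod_sub_le deriv_ne)

variable {K : Type} [Field K] {m n : ℕ}

/-- the identity of resultants -/
def Star (N : ℕ) (P : MvPolynomial (Fin n) K) (p q : Fin n → K) : Prop :=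
  MvPolynomial.eval q P ≠ 0 → ∀ x : Fin n → K,
    MvPolynomial.eval q P * resultant (ln P p q) (gr P p q x) N (N - 1) =
    resultant (ln P p q) (derivative (ln P p q)) N (N - 1) * MvPolynomial.eval x P

theorem res_le (f : AbsoluteValue K ℝ) {P Q : K[X]} {N d : ℕ} {A : ℝ} (hA : 0 ≤ A)
    (hP : ∀ j, f (P.coeff j) ≤ A) (hQ : ∀ j, f (Q.coeff j) ≤ A) :
    f (resultant P Q N d) ≤ (N + d).factorial * A ^ (N + d) := by
  unfold resultant
  have h1 := Matrix.det_le (A := sylvester P Q N d) (abv := f) (x := A) (by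
    intro i j
    induction j using Fin.addCases with
    | left j =>
      simp only [sylvester, Matrix.of_apply, Fin.addCases_left]
      split_ifs
      · exact hQ _
      · rw [map_zero]
        exact hA
    | right j =>
      simp only [sylvester, Matrix.of_apply, Fin.addCases_right]
      split_ifs
      · exact hP _
      · rw [map_zero]
        exact hA)
  rwa [Fintype.card_fin, nsmul_eq_mul] at h1

theorem near_prod [CharZero K] (f : AbsoluteValue K ℝ)
    {R : (Fin m → ℤ) →₀ MvPolynomial (Fin n) K} {N : ℕ}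
    (hN : 1 ≤ N) (hn : 0 < n) (hR : ∀ a, (R a).IsHomogeneous N) {μ : Fin m → ℤ}
    {L : Fin N → Fin n → K} (hL : R μ = ∏ j, lf (L j)) {p q : Fin n → K}
    (hq : ∀ j, L j ⬝ᵥ q ≠ 0) (hpq : Function.Injective (yz L p q)) (T : ℕ) :
    ∃ ρ₀ A : ℝ, 0 < ρ₀ ∧ ρ₀ ≤ 1 ∧ 1 ≤ A ∧ ∀ (u : Fin m → K) (ρ : ℝ), 0 ≤ ρ → ρ ≤ ρ₀ →
      (∀ a ∈ R.support, a ≠ μ → f (mono u (a - μ)) ≤ ρ) → Star N (Rv R μ u) p q →
      (∀ j i, f (wv R μ L p q T u j i - w0 R μ L p q j i) ≤ A * ρ) ∧
      ∀ (x : Fin n → K) (B : ℝ), (∀ i, f (x i) ≤ B) →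
        ∏ j, f (wv R μ L p q T u j ⬝ᵥ x) ≤
          A * (f (MvPolynomial.eval x (Rv R μ u)) + ρ ^ (T + 1) * B ^ N) := by
  classical
  obtain ⟨M, hM0, hM⟩ := unif f hR μ p q
  obtain ⟨g, hg⟩ : ∃ g, g = ln (R μ) p q := ⟨_, rfl⟩
  have hgp : g = C (∏ j, L j ⬝ᵥ q) * ∏ j, (X - C (yz L p q j)) := by
    rw [hg, hL]
    exact ln_prod L p q hq
  have hlq : (∏ j, L j ⬝ᵥ q) ≠ 0 := Finset.prod_ne_zero_iff.2 fun j _ => hq j
  have hmonic : (∏ j, (X - C (yz L p q j))).Monic :=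
    monic_prod_of_monic _ _ fun i _ => monic_X_sub_C _
  have hgdeg : g.natDegree = N := by
    rw [hgp, natDegree_C_mul hlq, natDegree_prod_of_monic _ _ fun i _ => monic_X_sub_C _]
    simp
  have hg0 : g ≠ 0 := by
    intro h
    rw [h, natDegree_zero] at hgdeg
    omega
  have hgs : g.Splits := by
    rw [hgp]
    exact (Splits.C _).mul (Splits.prod fun j _ => Splits.X_sub_C _)
  have hgsep : g.Separable := by
    rw [hgp]
    refine Separable.unit_mul ?_ ?_
    · exact isUnit_C.2 (isUnit_iff_ne_zero.2 hlq)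
    · exact separable_prod_X_sub_C_iff.2 hpq
  have hroot : ∀ j, g.eval (yz L p q j) = 0 := by
    intro j
    have h0 : ∏ i, (X - C (yz L p q i)).eval (yz L p q j) = 0 := by
      refine Finset.prod_eq_zero (Finset.mem_univ j) ?_
      rw [eval_sub, eval_X, eval_C, sub_self]
    rw [hgp, eval_mul, eval_prod, h0, mul_zero]
  have hroots : g.roots.toFinset = Finset.univ.image (yz L p q) := by
    ext β
    rw [Multiset.mem_toFinset, mem_roots hg0, Finset.mem_image]
    constructor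
    · intro h
      rw [IsRoot.def, hgp, eval_mul, eval_C, eval_prod] at h
      have h1 := (mul_eq_zero.1 h).resolve_left hlq
      rw [Finset.prod_eq_zero_iff] at h1
      obtain ⟨j, hj, hj0⟩ := h1
      rw [eval_sub, eval_X, eval_C] at hj0
      exact ⟨j, hj, (sub_eq_zero.1 hj0).symm⟩
    · rintro ⟨j, -, rfl⟩
      exact hroot j
  obtain ⟨ρ₁, c, A₁, hρ₁, hρ₁1, hc, hA₁, hnear⟩ := near_res f (N - 1) hN hgdeg hgs hgsep hM0
    (ι := Fin 0) Fin.elim0 (fun i => i.elim0) (fun i => i.elim0) T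
  have hnv := fun j => newt_val f hN hgdeg.le (hroot j) (deriv_ne hgsep (hroot j)) hM0 T
  choose Cn hCn0 hCn using hnv
  obtain ⟨D, hD⟩ : ∃ D : ℝ, D = ∑ j, Cn j := ⟨_, rfl⟩
  have hD0 : 0 ≤ D := by
    rw [hD]
    exact Finset.sum_nonneg fun j _ => hCn0 j
  have hDle : ∀ j, Cn j ≤ D := fun j => by
    rw [hD]
    exact Finset.single_le_sum (f := Cn) (fun j _ => hCn0 j) (Finset.mem_univ j)
  obtain ⟨Y, hY⟩ : ∃ Y : ℝ, Y = 1 + D + ∑ j, f (yz L p q j) := ⟨_, rfl⟩
  have hYs : 0 ≤ ∑ j, f (yz L p q j) := Finset.sum_nonneg fun _ _ => f.nonneg _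
  have hY1 : 1 ≤ Y := by linarith
  have hYy : ∀ j, f (yz L p q j) + D ≤ Y := fun j => by
    have := Finset.single_le_sum (f := fun j => f (yz L p q j)) (fun _ _ => f.nonneg _)
      (Finset.mem_univ j)
    linarith
  -- the coefficient at infinity
  obtain ⟨lc, hlc⟩ : ∃ lc : ℝ, lc = f (MvPolynomial.eval q (R μ)) := ⟨_, rfl⟩
  have hlc0 : 0 < lc := by
    rw [hlc, hL, map_prod]
    refine f.pos (Finset.prod_ne_zero_iff.2 fun j _ => ?_)
    rw [eval_lf]
    exact hq j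
  obtain ⟨Qb, hQb⟩ : ∃ Qb : ℝ, Qb = ∑ i, f (q i) := ⟨_, rfl⟩
  have hQb0 : 0 ≤ Qb := by
    rw [hQb]
    exact Finset.sum_nonneg fun _ _ => f.nonneg _
  obtain ⟨E1, hE1⟩ : ∃ E1 : ℝ, E1 = M + n * (Qb * M) := ⟨_, rfl⟩
  have hE10 : 0 ≤ E1 := by
    rw [hE1]
    positivity
  obtain ⟨E2, hE2⟩ : ∃ E2 : ℝ, E2 = (N + (N - 1)).factorial * E1 ^ (N + (N - 1)) := ⟨_, rfl⟩
  have hE20 : 0 ≤ E2 := by
    rw [hE2]
    positivity
  obtain ⟨A3, hA3⟩ : ∃ A3 : ℝ, A3 = (N + 1) * Y ^ N * M + (N + 1) * (M * (N * D * Y ^ N)) :=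
    ⟨_, rfl⟩
  have hA30 : 0 ≤ A3 := by
    rw [hA3]
    positivity
  obtain ⟨A4, hA4⟩ : ∃ A4 : ℝ, A4 = A₁ * (E2 * (2 / lc) + (n * M) ^ N) := ⟨_, rfl⟩
  have hA40 : 0 ≤ A4 := by
    rw [hA4]
    have : 0 ≤ A₁ := by linarith
    positivity
  refine ⟨min ρ₁ (lc / 2 / (M + 1)), 1 + A3 + A4, by positivity,
    (min_le_left _ _).trans hρ₁1, by linarith, ?_⟩
  intro u ρ hρ0 hρ hface hstar
  have hρ1 : ρ ≤ ρ₁ := hρ.trans (min_le_left _ _)
  have hρ2 : ρ ≤ 1 := hρ1.trans hρ₁1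
  have hρ3 : M * ρ ≤ lc / 2 := by
    have h1 := hρ.trans (min_le_right _ _)
    rw [le_div_iff₀ (by linarith)] at h1
    nlinarith
  obtain ⟨h1, h2, h3, h4, h5, h6⟩ := hM u ρ hρ0 hρ2 hface
  have hdeg := ln_natDegree (hom_Rv hR μ u) p q
  rw [← hg] at h1
  have hyv : ∀ j, f (yv R μ L p q T u j - yz L p q j) ≤ D * ρ := by
    intro j
    unfold yv
    rw [← hg]
    exact ((hCn j (ln (Rv R μ u) p q) ρ hρ0 hρ2 hdeg h1).1).trans
      (mul_le_mul_of_nonneg_right (hDle j) hρ0)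
  have hyvY : ∀ j, f (yv R μ L p q T u j) ≤ Y := by
    intro j
    have e1 : yv R μ L p q T u j = yz L p q j + (yv R μ L p q T u j - yz L p q j) := by ring
    rw [e1]
    refine (f.add_le _ _).trans ?_
    have := hyv j
    have h7 : D * ρ ≤ D := mul_le_of_le_one_right hD0 hρ2
    have := hYy j
    linarith
  constructor
  · intro j i
    have hdi := ln_natDegree ((hom_Rv hR μ u).pderiv (i := i)) p q
    have hdi' := ln_natDegree ((hR μ).pderiv (i := i)) p q
    have e1 : wv R μ L p q T u j i - w0 R μ L p q j i =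
        (ln (MvPolynomial.pderiv i (Rv R μ u)) p q - ln (MvPolynomial.pderiv i (R μ)) p q).eval
          (yv R μ L p q T u j) +
        ((ln (MvPolynomial.pderiv i (R μ)) p q).eval (yv R μ L p q T u j) -
          (ln (MvPolynomial.pderiv i (R μ)) p q).eval (yz L p q j)) := by
      unfold wv w0
      rw [eval_sub]
      ring
    rw [e1]
    refine (f.add_le _ _).trans ?_
    have h7 := eval_le f (q := ln (MvPolynomial.pderiv i (Rv R μ u)) p q -
      ln (MvPolynomial.pderiv i (R μ)) p q) (d := N) ((natDegree_sub_le _ _).trans (max_le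
        (by omega) (by omega))) hY1 (B := M * ρ) (fun l => by
        rw [coeff_sub]
        exact h3 i l) (hyvY j)
    have h8 := lip_eval f (G := ln (MvPolynomial.pderiv i (R μ)) p q) (N := N) (by omega) hY1
      (B := M) (h5 i) (hyvY j) (b := yz L p q j) (by have := hYy j; linarith)
    have h9 : (N + 1 : ℝ) * (M * (N * f (yv R μ L p q T u j - yz L p q j) * Y ^ N)) ≤
        (N + 1) * (M * (N * (D * ρ) * Y ^ N)) := by
      have := hyv j
      gcongr
    have h10 : (N + 1 : ℝ) * Y ^ N * (M * ρ) + (N + 1) * (M * (N * (D * ρ) * Y ^ N)) = A3 * ρ := by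
      rw [hA3]
      ring
    have h11 : A3 * ρ ≤ (1 + A3 + A4) * ρ := mul_le_mul_of_nonneg_right (by linarith) hρ0
    linarith
  · intro x B hB
    have hB0 : 0 ≤ B := (f.nonneg _).trans (hB ⟨0, hn⟩)
    obtain ⟨-, -, h7⟩ := hnear (ln (Rv R μ u) p q) ρ hρ0 hρ1 hdeg h1
    have hcoef : ∀ (z : Fin n → K) (Z : ℝ), (∀ i, f (z i) ≤ Z) → ∀ l,
        f ((gr (Rv R μ u) p q z).coeff l) ≤ n * (Z * M) := by
      intro z Z hZ l
      have hZ0 : 0 ≤ Z := (f.nonneg _).trans (hZ ⟨0, hn⟩)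
      unfold gr
      rw [finsetSum_coeff]
      refine (f.sum_le _ _).trans ?_
      have h8 : ∀ i ∈ (Finset.univ : Finset (Fin n)),
          f ((C (z i) * ln (MvPolynomial.pderiv i (Rv R μ u)) p q).coeff l) ≤ Z * M := by
        intro i _
        rw [coeff_C_mul, map_mul]
        exact mul_le_mul (hZ i) (h4 i l) (f.nonneg _) hZ0
      refine (Finset.sum_le_sum h8).trans ?_
      rw [Finset.sum_const, Finset.card_univ, Fintype.card_fin, nsmul_eq_mul]
    have h8 := h7 (gr (Rv R μ u) p q x) (n * (B * M)) (gr_natDegree (hom_Rv hR μ u) p q x)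
      (by positivity) (hcoef x B hB)
    have h9 : ∏ β ∈ g.roots.toFinset, f ((gr (Rv R μ u) p q x).eval
        (node (ln (Rv R μ u) p q) g T Fin.elim0 (Sum.inl β))) =
        ∏ j, f (wv R μ L p q T u j ⬝ᵥ x) := by
      rw [hroots, Finset.prod_image (fun i _ j _ h => hpq h)]
      refine Finset.prod_congr rfl fun j _ => ?_
      rw [← wv_dot]
      unfold yv
      rw [← hg]
      rfl
    rw [h9] at h8
    refine h8.trans ?_
    have hlow : lc / 2 ≤ f (MvPolynomial.eval q (Rv R μ u)) := by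
      have h10 := f.sub_le_add (MvPolynomial.eval q (Rv R μ u))
        (MvPolynomial.eval q (Rv R μ u) - MvPolynomial.eval q (R μ))
      rw [sub_sub_cancel, ← hlc] at h10
      linarith
    have hne : MvPolynomial.eval q (Rv R μ u) ≠ 0 := by
      intro h10
      rw [h10, map_zero] at hlow
      linarith
    have h10 := hstar hne x
    have hresder : f (resultant (ln (Rv R μ u) p q) (derivative (ln (Rv R μ u) p q)) N (N - 1)) ≤
        E2 := by
      rw [hE2]
      refine res_le f hE10 (fun j => (h2 j).trans ?_) (fun j => ?_)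
      · rw [hE1]
        have : 0 ≤ (n : ℝ) * (Qb * M) := by positivity
        linarith
      · rw [deriv_ln]
        refine (hcoef q Qb (fun i => ?_) j).trans ?_
        · rw [hQb]
          exact Finset.single_le_sum (f := fun i => f (q i)) (fun _ _ => f.nonneg _)
            (Finset.mem_univ i)
        · rw [hE1]
          linarith
    have h11 : f (resultant (ln (Rv R μ u) p q) (gr (Rv R μ u) p q x) N (N - 1)) ≤
        E2 * (2 / lc) * f (MvPolynomial.eval x (Rv R μ u)) := by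
      have h12 : f (MvPolynomial.eval q (Rv R μ u)) *
          f (resultant (ln (Rv R μ u) p q) (gr (Rv R μ u) p q x) N (N - 1)) =
          f (resultant (ln (Rv R μ u) p q) (derivative (ln (Rv R μ u) p q)) N (N - 1)) *
            f (MvPolynomial.eval x (Rv R μ u)) := by
        rw [← map_mul, h10, map_mul]
      have h13 : lc / 2 * f (resultant (ln (Rv R μ u) p q) (gr (Rv R μ u) p q x) N (N - 1)) ≤
          E2 * f (MvPolynomial.eval x (Rv R μ u)) := by
        refine (mul_le_mul_of_nonneg_right hlow (f.nonneg _)).trans ?_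
        rw [h12]
        exact mul_le_mul_of_nonneg_right hresder (f.nonneg _)
      have h14 : f (resultant (ln (Rv R μ u) p q) (gr (Rv R μ u) p q x) N (N - 1)) =
          2 / lc * (lc / 2 * f (resultant (ln (Rv R μ u) p q) (gr (Rv R μ u) p q x) N (N - 1))) := by
        rw [← mul_assoc]
        have : 2 / lc * (lc / 2) = 1 := by field_simp
        rw [this, one_mul]
      rw [h14]
      calc 2 / lc * (lc / 2 * f (resultant (ln (Rv R μ u) p q) (gr (Rv R μ u) p q x) N (N - 1))) ≤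
            2 / lc * (E2 * f (MvPolynomial.eval x (Rv R μ u))) :=
          mul_le_mul_of_nonneg_left h13 (by positivity)
        _ = _ := by ring
    obtain ⟨r, hr⟩ : ∃ r : ℝ, r = f (MvPolynomial.eval x (Rv R μ u)) := ⟨_, rfl⟩
    have hr0 : 0 ≤ r := by
      rw [hr]
      exact f.nonneg _
    rw [← hr] at h11 ⊢
    have hA10 : 0 ≤ A₁ := by linarith
    have h12 : A₁ * (f (resultant (ln (Rv R μ u) p q) (gr (Rv R μ u) p q x) N (N - 1)) +
        ρ ^ (T + 1) * (n * (B * M)) ^ N) ≤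
        A₁ * (E2 * (2 / lc) * r + ρ ^ (T + 1) * (n * (B * M)) ^ N) :=
      mul_le_mul_of_nonneg_left (by linarith) hA10
    refine h12.trans ?_
    have h13 : (n * (B * M)) ^ N = (n * M) ^ N * B ^ N := by
      rw [← mul_pow]
      congr 1
      ring
    rw [h13]
    have h14 : 0 ≤ ρ ^ (T + 1) * B ^ N := by positivity
    have h15 : 0 ≤ E2 * (2 / lc) := by positivity
    have h16 : 0 ≤ ((n : ℝ) * M) ^ N := by positivity
    have h17 : E2 * (2 / lc) * r + ρ ^ (T + 1) * ((n * M) ^ N * B ^ N) ≤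
        (E2 * (2 / lc) + (n * M) ^ N) * (r + ρ ^ (T + 1) * B ^ N) := by
      have h18 : 0 ≤ E2 * (2 / lc) * (ρ ^ (T + 1) * B ^ N) := mul_nonneg h15 h14
      have h19 : 0 ≤ ((n : ℝ) * M) ^ N * r := mul_nonneg h16 hr0
      nlinarith
    have h18 := mul_le_mul_of_nonneg_left h17 hA10
    refine h18.trans ?_
    rw [← mul_assoc, ← hA4]
    exact mul_le_mul_of_nonneg_right (by linarith) (by positivity)

/-- the local inequality -/
theorem near_ineq [CharZero K] (f : AbsoluteValue K ℝ)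
    {R : (Fin m → ℤ) →₀ MvPolynomial (Fin n) K} {N : ℕ}
    (hN : 1 ≤ N) (hn : 0 < n) (hnN : n ≤ N) (hR : ∀ a, (R a).IsHomogeneous N) {μ : Fin m → ℤ}
    {L : Fin N → Fin n → K} (hL : R μ = ∏ j, lf (L j)) {p q : Fin n → K}
    (hq : ∀ j, L j ⬝ᵥ q ≠ 0) (hpq : Function.Injective (yz L p q))
    (hgen : ∀ e : Fin n ↪ Fin N, LinearIndependent K fun i => L (e i)) (T : ℕ) :
    ∃ ρ₀ A c : ℝ, 0 < ρ₀ ∧ ρ₀ ≤ 1 ∧ 0 < c ∧ ∀ (u : Fin m → K) (ρ : ℝ), 0 ≤ ρ → ρ ≤ ρ₀ →
      (∀ a ∈ R.support, a ≠ μ → f (mono u (a - μ)) ≤ ρ) → Star N (Rv R μ u) p q →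
      (∀ e : Fin n ↪ Fin N, c ≤ f (Matrix.of fun i => wv R μ L p q T u (e i)).det) ∧
      ∀ (x : Fin n → K) (i0 : Fin n), x i0 ≠ 0 → (∀ i, f (x i) ≤ f (x i0)) →
        (∀ j, wv R μ L p q T u j ⬝ᵥ x ≠ 0) → MvPolynomial.eval x (Rv R μ u) ≠ 0 →
        ρ ^ (T + 1) * f (x i0) ^ N ≤ f (MvPolynomial.eval x (Rv R μ u)) →
        ∃ e : Fin n ↪ Fin N,
          N * Real.log (f (x i0)) - Real.log (f (MvPolynomial.eval x (Rv R μ u))) ≤
            A + ∑ i, (Real.log (f (x i0)) - Real.log (f (wv R μ L p q T u (e i) ⬝ᵥ x))) := by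
  classical
  obtain ⟨ρ₁, A₁, hρ₁, hρ₁1, hA₁, h⟩ := near_prod f hN hn hR hL hq hpq T
  obtain ⟨C0, hC0, hIB⟩ := exists_IB f (w0 R μ L p q) (w0_indep hL hq hpq hgen)
  have hA10 : 0 < A₁ := by linarith
  have hnR : (0 : ℝ) < n := by exact_mod_cast hn
  refine ⟨min ρ₁ (1 / (2 * (C0 * (n * A₁)))), Real.log (2 * A₁) + N * |Real.log (2 * C0)|,
    1 / (n.factorial * (2 * C0) ^ n), by positivity, (min_le_left _ _).trans hρ₁1,
    by positivity, ?_⟩
  intro u ρ hρ0 hρ hface hstar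
  obtain ⟨h1, h2⟩ := h u ρ hρ0 (hρ.trans (min_le_left _ _)) hface hstar
  have hIB' : IB f (wv R μ L p q T u) (2 * C0) := by
    refine IB.near hIB h1 hn ?_
    have h3 := hρ.trans (min_le_right _ _)
    rw [le_div_iff₀ (by positivity)] at h3
    nlinarith
  refine ⟨fun e => ?_, ?_⟩
  · have h3 := hIB'.det e
    rw [div_le_iff₀ (by positivity)]
    linarith
  intro x i0 hi0 hmax hne hev hT
  have h3 := h2 x (f (x i0)) hmax
  obtain ⟨e, he⟩ := hIB'.sel (by positivity) (by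
    rw [Nat.card_eq_fintype_card, Fintype.card_fin]
    exact hnN) hn hne
  refine ⟨e, ?_⟩
  obtain ⟨B, hB⟩ : ∃ B : ℝ, B = f (x i0) := ⟨_, rfl⟩
  obtain ⟨r, hr⟩ : ∃ r : ℝ, r = f (MvPolynomial.eval x (Rv R μ u)) := ⟨_, rfl⟩
  have hB0 : 0 < B := by rw [hB]; exact f.pos hi0
  have hr0 : 0 < r := by rw [hr]; exact f.pos hev
  rw [← hB, ← hr] at h3 hT ⊢
  have h4 : ∏ j, f (wv R μ L p q T u j ⬝ᵥ x) ≤ 2 * A₁ * r := by
    refine h3.trans ?_
    have : A₁ * (r + ρ ^ (T + 1) * B ^ N) ≤ A₁ * (r + r) :=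
      mul_le_mul_of_nonneg_left (by linarith) hA10.le
    linarith
  have h5 : ∑ j, Real.log (f (wv R μ L p q T u j ⬝ᵥ x)) ≤ Real.log (2 * A₁) + Real.log r := by
    rw [← Real.log_prod (fun j _ => (f.pos (hne j)).ne'), ← Real.log_mul (by positivity) hr0.ne']
    exact Real.log_le_log (Finset.prod_pos fun j _ => f.pos (hne j)) h4
  obtain ⟨t, ht⟩ : ∃ t : Fin N → ℝ, ∀ j, t j = Real.log B -
    Real.log (f (wv R μ L p q T u j ⬝ᵥ x)) := ⟨_, fun _ => rfl⟩
  have h6 : ∑ j, t j ≤ ∑ i, t (e i) + N * |Real.log (2 * C0)| := by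
    have h7 : ∑ i, t (e i) = ∑ j ∈ Finset.univ.map e, t j := by
      rw [Finset.sum_map]
    rw [h7, ← Finset.sum_add_sum_compl (Finset.univ.map e) t]
    refine add_le_add le_rfl ?_
    have h8 : ∀ j ∈ (Finset.univ.map e)ᶜ, t j ≤ |Real.log (2 * C0)| := by
      intro j hj
      have h9 := he j (by
        rintro ⟨i, hi⟩
        rw [Finset.mem_compl, Finset.mem_map] at hj
        exact hj ⟨i, Finset.mem_univ _, hi⟩) i0 hi0
      rw [← hB] at h9
      rw [ht]
      have := le_abs_self (Real.log (2 * C0))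
      linarith
    refine (Finset.sum_le_sum h8).trans ?_
    rw [Finset.sum_const, nsmul_eq_mul]
    refine mul_le_mul_of_nonneg_right ?_ (abs_nonneg _)
    have h9 := Finset.card_le_univ (Finset.univ.map e)ᶜ
    rw [Fintype.card_fin] at h9
    exact_mod_cast h9
  have h7 : ∑ j, t j = N * Real.log B - ∑ j, Real.log (f (wv R μ L p q T u j ⬝ᵥ x)) := by
    simp only [ht]
    rw [Finset.sum_sub_distrib, Finset.sum_const, Finset.card_univ, Fintype.card_fin,
      nsmul_eq_mul]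
  have h8 : ∑ i, (Real.log B - Real.log (f (wv R μ L p q T u (e i) ⬝ᵥ x))) = ∑ i, t (e i) :=
    Finset.sum_congr rfl fun i _ => (ht _).symm
  rw [h8]
  linarith

end Pool.Agent.Run7.h489.GF
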