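import Mathlib
import Pool.Agent.N63.MT.Core
import Pool.Agent.Run7.h489.NF.Ht
import Pool.Agent.Run7.h489.GF.Nr

set_option autoImplicit false
set_option linter.unusedSectionVars false

/-!
The factors as Laurent polynomials, heights, auxiliary points.
-/

namespace Pool.Agent.Run7.h489.GF

open Polynomial Height NumberField IsDedekindDomain
open Pool.Agent.Run7.h489.TM
open Pool.Agent.Run7.h489.NF (max_mon)
open Pool.Agent.N63.MT (mn mn_ne lv ku)

section

variable {K : Type} [Field K] {m n : ℕ}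

theorem isL_eval (P : MvPolynomial (Fin n) K) {z : Fin n → (Fin m → K) → K}
    (hz : ∀ i, IsL (z i)) : IsL fun u => MvPolynomial.eval (fun i => z i u) P := by
  induction P using MvPolynomial.induction_on with
  | C a => simpa using IsL.const (m := m) a
  | add P Q hP hQ => simpa using hP.add hQ
  | mul_X P i hP => simpa using hP.mul (hz i)

theorem Rv_eval (R : (Fin m → ℤ) →₀ MvPolynomial (Fin n) K) (μ : Fin m → ℤ) (u : Fin m → K)
    (z : Fin n → K) :
    MvPolynomial.eval z (Rv R μ u) = ∑ a ∈ R.support, mono u (a - μ) * MvPolynomial.eval z (R a) :=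
  phi_Rv (evc z) R μ u

theorem isL_yv (R : (Fin m → ℤ) →₀ MvPolynomial (Fin n) K) (μ : Fin m → ℤ) {N : ℕ}
    (L : Fin N → Fin n → K) (p q : Fin n → K) (T : ℕ) (j : Fin N) :
    IsL fun u => yv R μ L p q T u j := by
  unfold yv
  obtain ⟨c, hc⟩ : ∃ c, c = (ln (R μ) p q).derivative.eval (yz L p q j) := ⟨_, rfl⟩
  obtain ⟨α, hα⟩ : ∃ α, α = yz L p q j := ⟨_, rfl⟩
  rw [← hc, ← hα]
  induction T with
  | zero => exact IsL.const α
  | succ l ih =>
    have h2 : IsL fun u : Fin m → K => (ln (Rv R μ u) p q).eval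
        (newt (ln (Rv R μ u) p q) c α l) := by
      have h3 : IsL fun u : Fin m → K => ∑ a ∈ R.support, mono u (a - μ) *
          MvPolynomial.eval (fun i => p i + q i * newt (ln (Rv R μ u) p q) c α l) (R a) := by
        refine IsL.sum _ fun a _ => ?_
        have h4 : IsL fun u : Fin m → K => 1 * mono u (a - μ) := IsL.mono _ _
        simp only [one_mul] at h4
        refine h4.mul (isL_eval _ fun i => ?_)
        exact (IsL.const (p i)).add ((IsL.const (q i)).mul ih)
      refine h3.congr fun u _ => ?_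
      rw [ln_eval, Rv_eval]
    refine (ih.add ((IsL.const (-c⁻¹)).mul h2)).congr fun u _ => ?_
    show _ = newt (ln (Rv R μ u) p q) c α l -
      (ln (Rv R μ u) p q).eval (newt (ln (Rv R μ u) p q) c α l) / c
    rw [div_eq_mul_inv]
    ring

theorem isL_wv (R : (Fin m → ℤ) →₀ MvPolynomial (Fin n) K) (μ : Fin m → ℤ) {N : ℕ}
    (L : Fin N → Fin n → K) (p q : Fin n → K) (T : ℕ) (j : Fin N) (i : Fin n) :
    IsL fun u => wv R μ L p q T u j i := by
  have h3 : IsL fun u : Fin m → K => ∑ a ∈ R.support, mono u (a - μ) *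
      MvPolynomial.eval (fun i => p i + q i * yv R μ L p q T u j)
        (MvPolynomial.pderiv i (R a)) := by
    refine IsL.sum _ fun a _ => ?_
    have h4 : IsL fun u : Fin m → K => 1 * mono u (a - μ) := IsL.mono _ _
    simp only [one_mul] at h4
    refine h4.mul (isL_eval _ fun i => ?_)
    exact (IsL.const (p i)).add ((IsL.const (q i)).mul (isL_yv R μ L p q T j))
  refine h3.congr fun u _ => ?_
  unfold wv
  rw [ln_eval]
  exact (phi_Rv ((evc fun i => p i + q i * yv R μ L p q T u j).comp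
    (MvPolynomial.pderiv i).toLinearMap) R μ u).symm

/-- the comparison of the forms and the values -/
theorem cmp (f : AbsoluteValue K ℝ) {κ : Type} {E : Fin m →₀ ℕ}
    {a : κ → Fin n → MvPolynomial (Fin m) K} {W : κ → (Fin m → K) → Fin n → K}
    (hW : ∀ b (u : Fin m → K), (∀ i, u i ≠ 0) → ∀ i,
      MvPolynomial.eval u (a b i) = mn u E * W b u i) (J : Fin n → κ) {c : ℝ} (hc : 0 < c) :
    ∃ A : ℝ, ∀ (u : Fin m → K) (x : Fin n → K) (β : ℝ), (∀ i, u i ≠ 0) →
      c ≤ f (Matrix.of fun i => W (J i) u).det → (∀ i, W (J i) u ⬝ᵥ x ≠ 0) →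
      ∃ I ∈ (Matrix.of fun j => a (J j)).det.support,
        ∑ j, (β - Real.log (f (W (J j) u ⬝ᵥ x))) ≤
          A + (∑ j, (β - Real.log (f (lv (a (J j)) u x))) + Real.log (f (mn u I))) := by
  refine ⟨Real.log (∑ I ∈ (Matrix.of fun j => a (J j)).det.support,
    f ((Matrix.of fun j => a (J j)).det.coeff I)) - Real.log c, ?_⟩
  intro u x β hu hdet hne
  have hE : 0 < f (mn u E) := f.pos (mn_ne hu E)
  have hdet0 : 0 < f (Matrix.of fun i => W (J i) u).det := lt_of_lt_of_le hc hdet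
  have h1 : MvPolynomial.eval u (Matrix.of fun j => a (J j)).det =
      mn u E ^ n * (Matrix.of fun i => W (J i) u).det := by
    rw [RingHom.map_det]
    have h2 : (MvPolynomial.eval u).mapMatrix (Matrix.of fun j => a (J j)) =
        mn u E • (Matrix.of fun i => W (J i) u) := by
      ext1 i j
      rw [RingHom.mapMatrix_apply, Matrix.map_apply, Matrix.of_apply, hW _ u hu,
        Matrix.smul_apply, Matrix.of_apply, smul_eq_mul]
    rw [h2, Matrix.det_smul, Fintype.card_fin]
  have h2 : MvPolynomial.eval u (Matrix.of fun j => a (J j)).det ≠ 0 := by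
    rw [h1]
    exact mul_ne_zero (pow_ne_zero _ (mn_ne hu E)) (fun h => by
      rw [h, map_zero] at hdet0
      exact lt_irrefl _ hdet0)
  obtain ⟨I, hI, h3⟩ := max_mon f hu h2
  refine ⟨I, hI, ?_⟩
  rw [h1, map_mul, map_pow, Real.log_mul (by positivity) hdet0.ne', Real.log_pow] at h3
  have h4 := Real.log_le_log hc hdet
  have h5 : ∑ j, (β - Real.log (f (lv (a (J j)) u x))) =
      ∑ j, (β - Real.log (f (W (J j) u ⬝ᵥ x))) - n * Real.log (f (mn u E)) := by
    have h6 : ∀ j, β - Real.log (f (lv (a (J j)) u x)) =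
        (β - Real.log (f (W (J j) u ⬝ᵥ x))) - Real.log (f (mn u E)) := by
      intro j
      have h7 : lv (a (J j)) u x = mn u E * (W (J j) u ⬝ᵥ x) := by
        unfold lv dotProduct
        rw [Finset.mul_sum]
        refine Finset.sum_congr rfl fun i _ => ?_
        rw [hW _ u hu, mul_assoc]
      rw [h7, map_mul, Real.log_mul hE.ne' (f.ne_zero (hne j))]
      ring
    rw [Finset.sum_congr rfl fun j _ => h6 j, Finset.sum_sub_distrib, Finset.sum_const,
      Finset.card_univ, Fintype.card_fin, nsmul_eq_mul]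
  rw [h5]
  linarith

/-- general position -/
def GP {N : ℕ} (L : Fin N → Fin n → K) : Prop :=
  ∀ s : Finset (Fin N), s.card ≤ n → LinearIndependent K fun j : s => L j

theorem GP.emb {N : ℕ} {L : Fin N → Fin n → K} (h : GP L) (e : Fin n ↪ Fin N) :
    LinearIndependent K fun i => L (e i) := by
  have h1 := h (Finset.univ.map e) (by rw [Finset.card_map, Finset.card_univ, Fintype.card_fin])
  exact h1.comp (fun i : Fin n => (⟨e i, Finset.mem_map_of_mem _ (Finset.mem_univ i)⟩ :
    (Finset.univ.map e : Finset (Fin N)))) fun i j hij => e.injective (Subtype.ext_iff.1 hij)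

theorem GP.ne {N : ℕ} {L : Fin N → Fin n → K} (h : GP L) (hn : 2 ≤ n) (j : Fin N) : L j ≠ 0 := by
  classical
  have h1 := h {j} (by rw [Finset.card_singleton]; omega)
  exact h1.ne_zero (⟨j, Finset.mem_singleton_self j⟩ : ({j} : Finset (Fin N)))

theorem GP.pair {N : ℕ} {L : Fin N → Fin n → K} (h : GP L) (hn : 2 ≤ n) {i j : Fin N}
    (hij : i ≠ j) {a b : K} (ha : a ≠ 0) : a • L i - b • L j ≠ 0 := by
  classical
  intro h0
  have h1 := h {i, j} (by rw [Finset.card_pair hij]; exact hn)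
  rw [Fintype.linearIndependent_iff] at h1
  have h2 := h1 (fun t => if t.1 = i then a else -b) (by
    rw [Finset.sum_coe_sort {i, j} (fun t => (if t = i then a else -b) • L t),
      Finset.sum_pair hij, if_pos rfl, if_neg (Ne.symm hij), neg_smul, ← sub_eq_add_neg]
    exact h0) ⟨i, Finset.mem_insert_self _ _⟩
  simp only [if_true] at h2
  exact ha h2

end

section

variable {k K : Type} [Field k] [Infinite k] [Field K] [Algebra k K] {n : ℕ}

/-- a point off finitely many hyperplanes -/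
theorem avoid {α : Type} [Finite α] (ℓ : α → Fin n → K) (h : ∀ s, ℓ s ≠ 0) :
    ∃ q : Fin n → k, ∀ s, ℓ s ⬝ᵥ ku K q ≠ 0 := by
  classical
  have : Fintype α := Fintype.ofFinite α
  obtain ⟨P, hP⟩ : ∃ P : α → K[X], ∀ s, P s = ∑ i : Fin n, C (ℓ s i) * X ^ i.1 :=
    ⟨_, fun _ => rfl⟩
  have hcoef : ∀ s (i : Fin n), (P s).coeff i.1 = ℓ s i := by
    intro s i
    rw [hP, finsetSum_coeff, Finset.sum_eq_single i]
    · rw [coeff_C_mul, coeff_X_pow, if_pos rfl, mul_one]
    · intro j _ hj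
      rw [coeff_C_mul, coeff_X_pow, if_neg (fun h => hj (Fin.ext h.symm)), mul_zero]
    · intro h
      exact absurd (Finset.mem_univ _) h
  have hP0 : ∏ s, P s ≠ 0 := by
    rw [Finset.prod_ne_zero_iff]
    intro s _ h0
    apply h s
    funext i
    rw [← hcoef, h0, coeff_zero, Pi.zero_apply]
  obtain ⟨t, ht⟩ : ∃ t : k, (∏ s, P s).eval (algebraMap k K t) ≠ 0 := by
    by_contra hcon
    push Not at hcon
    have h1 : Set.Infinite (Set.range (algebraMap k K)) :=
      Set.infinite_range_of_injective (algebraMap k K).injective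
    refine h1 (((∏ s, P s).roots.toFinset.finite_toSet).subset ?_)
    rintro _ ⟨t, rfl⟩
    rw [Finset.mem_coe, Multiset.mem_toFinset, mem_roots hP0]
    exact hcon t
  refine ⟨fun i => t ^ i.1, fun s h0 => ht ?_⟩
  rw [eval_prod]
  refine Finset.prod_eq_zero (Finset.mem_univ s) ?_
  rw [hP, eval_finsetSum, ← h0]
  unfold dotProduct
  refine Finset.sum_congr rfl fun i _ => ?_
  rw [eval_mul, eval_C, eval_pow, eval_X]
  show _ = ℓ s i * algebraMap k K (t ^ i.1)
  rw [map_pow]

theorem exists_pq {α : Type} [Finite α] {N : ℕ} (hn : 2 ≤ n) (L : α → Fin N → Fin n → K)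
    (hL : ∀ s, GP (L s)) : ∃ p q : Fin n → k, ∀ s, (∀ j, L s j ⬝ᵥ ku K q ≠ 0) ∧
      Function.Injective (yz (L s) (ku K p) (ku K q)) := by
  obtain ⟨q, hq⟩ := avoid (k := k) (fun x : α × Fin N => L x.1 x.2) fun x => (hL x.1).ne hn x.2
  obtain ⟨p, hp⟩ := avoid (k := k) (fun x : {x : α × (Fin N × Fin N) // x.2.1 ≠ x.2.2} =>
    (L x.1.1 x.1.2.2 ⬝ᵥ ku K q) • L x.1.1 x.1.2.1 -
      (L x.1.1 x.1.2.1 ⬝ᵥ ku K q) • L x.1.1 x.1.2.2) fun x =>
      (hL x.1.1).pair hn x.2 (hq (x.1.1, x.1.2.2))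
  refine ⟨p, q, fun s => ⟨fun j => hq (s, j), fun i j hij => ?_⟩⟩
  by_contra hne
  refine hp ⟨(s, (i, j)), hne⟩ ?_
  have h1 := hq (s, i)
  have h2 := hq (s, j)
  have h3 : -(L s i ⬝ᵥ ku K p) / (L s i ⬝ᵥ ku K q) = -(L s j ⬝ᵥ ku K p) / (L s j ⬝ᵥ ku K q) := hij
  rw [div_eq_div_iff h1 h2] at h3
  show ((L s j ⬝ᵥ ku K q) • L s i - (L s i ⬝ᵥ ku K q) • L s j) ⬝ᵥ ku K p = 0
  rw [sub_dotProduct, smul_dotProduct, smul_dotProduct, smul_eq_mul, smul_eq_mul]
  linear_combination -h3

end

section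

variable {k : Type} [Field k] [NumberField k] {m n : ℕ}

theorem height_eval (P : MvPolynomial (Fin n) k) : ∃ C : ℝ, 0 ≤ C ∧ ∀ (x : Fin n → k) (h : ℝ),
    0 ≤ h → (∀ i, logHeight₁ (x i) ≤ h) → logHeight₁ (MvPolynomial.eval x P) ≤ C * (h + 1) := by
  induction P using MvPolynomial.induction_on with
  | C a =>
    refine ⟨logHeight₁ a, zero_le_logHeight₁ a, fun x h h0 _ => ?_⟩
    rw [MvPolynomial.eval_C]
    have := zero_le_logHeight₁ a
    nlinarith
  | add P Q hP hQ =>
    obtain ⟨C1, h1, hC1⟩ := hP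
    obtain ⟨C2, h2, hC2⟩ := hQ
    refine ⟨|totalWeight k * Real.log 2| + C1 + C2, by positivity, fun x h h0 hx => ?_⟩
    rw [map_add]
    have h3 := logHeight₁_add_le (MvPolynomial.eval x P) (MvPolynomial.eval x Q)
    have h4 := hC1 x h h0 hx
    have h5 := hC2 x h h0 hx
    have h6 := le_abs_self (totalWeight k * Real.log 2)
    have h7 : |totalWeight k * Real.log 2| * 1 ≤ |totalWeight k * Real.log 2| * (h + 1) :=
      mul_le_mul_of_nonneg_left (by linarith) (abs_nonneg _)
    nlinarith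
  | mul_X P i hP =>
    obtain ⟨C1, h1, hC1⟩ := hP
    refine ⟨C1 + 1, by positivity, fun x h h0 hx => ?_⟩
    rw [map_mul, MvPolynomial.eval_X]
    have h3 := logHeight₁_mul_le (MvPolynomial.eval x P) (x i)
    have h4 := hC1 x h h0 hx
    have h5 := hx i
    nlinarith

theorem height_val (R : (Fin m → ℤ) →₀ MvPolynomial (Fin n) k) : ∃ C : ℝ, 0 ≤ C ∧
    ∀ (u : Fin m → k) (x : Fin n → k) (h : ℝ), 0 ≤ h → (∀ i, logHeight₁ (x i) ≤ h) →
      logHeight₁ (MvPolynomial.eval x (Rv R 0 u)) ≤ C * (hs u + h + 1) := by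
  have hch := fun a : Fin m → ℤ => height_eval (R a)
  choose c hc0 hc using hch
  obtain ⟨A, hA⟩ : ∃ A : ℝ, A = |totalWeight k * Real.log R.support.card| := ⟨_, rfl⟩
  have hA0 : 0 ≤ A := by rw [hA]; exact abs_nonneg _
  refine ⟨A + ∑ a ∈ R.support, (c a + ∑ i, |(a i : ℝ)|), add_nonneg hA0
    (Finset.sum_nonneg fun a _ => add_nonneg (hc0 a) (Finset.sum_nonneg fun _ _ => abs_nonneg _)),
    ?_⟩
  intro u x h h0 hx
  have hu0 := hs_nonneg u
  rw [Rv_eval]
  refine (logHeight₁_sum_le _ _).trans ?_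
  have h1 : ∀ a ∈ R.support, logHeight₁ (mono u (a - 0) * MvPolynomial.eval x (R a)) ≤
      (c a + ∑ i, |(a i : ℝ)|) * (hs u + h + 1) := by
    intro a _
    rw [sub_zero]
    refine (logHeight₁_mul_le _ _).trans ?_
    have h2 := height_mono_le u a
    have h3 := hc a x h h0 hx
    have h4 : 0 ≤ ∑ i, |(a i : ℝ)| := Finset.sum_nonneg fun _ _ => abs_nonneg _
    have h5 := hc0 a
    nlinarith [mul_nonneg h4 h0, mul_nonneg h5 hu0]
  have h2 := Finset.sum_le_sum h1
  rw [← Finset.sum_mul] at h2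
  have h3 : totalWeight k * Real.log R.support.card ≤ A * (hs u + h + 1) := by
    have h4 := le_abs_self (totalWeight k * Real.log R.support.card)
    rw [← hA] at h4
    nlinarith
  rw [add_mul]
  linarith

end

end Pool.Agent.Run7.h489.GF
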