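import Mathlib
import Pool.Agent.N63.MT.Main
import Pool.Agent.Run7.h489.TM.Gen
import Pool.Agent.Run7.h489.VJ.Main
import Pool.Agent.Run7.h489.NF.Big
import Pool.Agent.Run7.h489.GF.Lz

set_option autoImplicit false
set_option linter.unusedSectionVars false

/-!
The inequality for divisors whose fibres are unions of hyperplanes.
-/

namespace Pool.Agent.Run7.h489.GF

open Height NumberField IsDedekindDomain
open Pool.Agent.W180.OP (Pl av wt fv nrm wt_nonneg le_nrm exists_nrm nrm_pos)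
open Pool.Agent.R404.TC (Sp)
open Pool.Agent.R405 (Good exists_good)
open Pool.Agent.Run7.h489.TM
open Pool.Agent.Run7.h489.NF (log_nrm_le mono_neg' height_coord_le)
open Pool.Agent.Run7.h489.VJ (exists_poly)
open Pool.Agent.N63.MT (core lv ku ex sn mn mn_ne mn_map ex_facts lp height_congr)

variable {k K : Type} [Field k] [NumberField k] [Field K] [NumberField K] [Algebra k K]
  {S : Finset (HeightOneSpectrum (𝓞 k))} {m n : ℕ}

/-- base change -/
noncomputable def bcR (K : Type) [Field K] [Algebra k K]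
    (R : (Fin m → ℤ) →₀ MvPolynomial (Fin n) k) : (Fin m → ℤ) →₀ MvPolynomial (Fin n) K :=
  R.mapRange (MvPolynomial.map (algebraMap k K)) (map_zero _)

theorem bcR_support (R : (Fin m → ℤ) →₀ MvPolynomial (Fin n) k) :
    (bcR K R).support = R.support :=
  Finsupp.support_mapRange_of_injective _ _
    (MvPolynomial.map_injective _ (algebraMap k K).injective)

theorem bcR_apply (R : (Fin m → ℤ) →₀ MvPolynomial (Fin n) k) (a : Fin m → ℤ) :
    bcR K R a = MvPolynomial.map (algebraMap k K) (R a) := Finsupp.mapRange_apply ..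

theorem Rv_bcR (R : (Fin m → ℤ) →₀ MvPolynomial (Fin n) k) (μ : Fin m → ℤ) (u : Fin m → k) :
    Rv (bcR K R) μ (ku K u) = MvPolynomial.map (algebraMap k K) (Rv R μ u) := by
  unfold Rv
  rw [map_sum, bcR_support]
  refine Finset.sum_congr rfl fun a _ => ?_
  rw [map_mul, MvPolynomial.map_C, bcR_apply, map_mono]
  rfl

theorem eval_bc (P : MvPolynomial (Fin n) k) (x : Fin n → k) :
    MvPolynomial.eval (ku K x) (MvPolynomial.map (algebraMap k K) P) =
      algebraMap k K (MvPolynomial.eval x P) := by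
  rw [MvPolynomial.eval_map]
  exact (MvPolynomial.eval₂_comp (algebraMap k K) x P).symm

theorem Rv_mu {K : Type} [Field K] (R : (Fin m → ℤ) →₀ MvPolynomial (Fin n) K) (μ : Fin m → ℤ)
    {u : Fin m → K} (hu : ∀ i, u i ≠ 0) :
    Rv R μ u = MvPolynomial.C (mono u (-μ)) * Rv R 0 u := by
  unfold Rv
  rw [Finset.mul_sum]
  refine Finset.sum_congr rfl fun a _ => ?_
  rw [← mul_assoc, ← map_mul]
  congr 2
  have h1 : a - μ = -μ + (a - 0) := by
    rw [sub_zero]
    ring
  rw [h1, mono_add hu]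

theorem star_bc {R : (Fin m → ℤ) →₀ MvPolynomial (Fin n) k} {N : ℕ} (hN : 1 ≤ N)
    {u : Fin m → k} (hu : ∀ i, u i ≠ 0) (h : Spl N (Rv R 0 u)) (μ : Fin m → ℤ)
    (p q : Fin n → K) : Star N (Rv (bcR K R) μ (ku K u)) p q := by
  intro hq x
  have h1 := spl_smul hN h (mono u (-μ))
  rw [← Rv_mu R μ hu] at h1
  obtain ⟨L, hL⟩ := h1
  have hfd : FiniteDimensional ℚ K := inferInstance
  have hfk : FiniteDimensional k K := Module.Finite.of_restrictScalars_finite ℚ k K
  have halg : Algebra.IsAlgebraic k K := Algebra.IsAlgebraic.of_finite k K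
  obtain ⟨φ, hφ⟩ : ∃ φ : K →ₐ[k] AlgebraicClosure k, True := ⟨IsAlgClosed.lift, trivial⟩
  refine star (φ : K →+* AlgebraicClosure k) (L := L) ?_ p q x hq
  rw [Rv_bcR, MvPolynomial.map_map, AlgHom.comp_algebraMap]
  exact hL

theorem gf_big [IsGalois ℚ K] (hi : ∃ z : K, z ^ 2 = -1)
    (R : (Fin m → ℤ) →₀ MvPolynomial (Fin n) k) {N : ℕ} (hn : 2 ≤ n) (hnN : n ≤ N)
    (hR : ∀ a, (R a).IsHomogeneous N)
    (hspl : ∀ u : Fin m → k, (∀ i, u i ≠ 0) → Spl N (Rv R 0 u))
    (𝓜 : Finset (Fin m → ℤ)) (L : 𝓜 → Fin N → Fin n → K)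
    (hL : ∀ μ : 𝓜, MvPolynomial.map (algebraMap k K) (R μ.1) = ∏ j, lf (L μ j))
    (hgen : ∀ μ, GP (L μ)) {ε δ : ℝ} (hε : 0 < ε) (hδ : 0 < δ) :
    ∃ (Z : Finset (Fin n → MvPolynomial (Fin m) K)) (C1 C2 : ℝ), 0 ≤ C1 ∧ 0 ≤ C2 ∧
      (∀ P ∈ Z, P ≠ 0) ∧ ∀ (u : Fin m → k) (x : Fin n → k) (i0 : Fin n), x i0 = 1 →
        (∀ i, u i ≠ 0) → MvPolynomial.eval x (Rv R 0 u) ≠ 0 →
        (∀ P ∈ Z, lv P (ku K u) (ku K x) ≠ 0) →
        hs u + logHeight x ≤ C2 ∨ ∀ (T : Finset (Pl k)) (μ : Pl k → Fin m → ℤ), T ⊆ Sp S →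
          (∀ v ∈ T, μ v ∈ 𝓜 ∧ ∀ a ∈ R.support, a ≠ μ v → Real.log (av v (mono u a)) ≤
            Real.log (av v (mono u (μ v))) - δ * (hs u + logHeight x)) →
          ∑ v ∈ T, wt v * (Real.log (av v (mono u (μ v))) + N * Real.log (nrm (av v) x) -
            Real.log (av v (MvPolynomial.eval x (Rv R 0 u)))) ≤
            (n + ε) * logHeight x + ε * hs u + C1 * ∑ i, ex (Sp S) (u i) + C2 := by
  classical
  have hn0 : 0 < n := by omega
  have hN : 1 ≤ N := by omega
  choose fa hfa using fun v : Pl k => exists_good (K := K) v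
  have hfe : ∀ (v : Pl k) (y : k), fa v (algebraMap k K y) = av v y := fun v y => (hfa v).ext y
  obtain ⟨p, q, hpq⟩ := exists_pq (k := k) hn L hgen
  -- the constants
  obtain ⟨CR, hCR0, hCR⟩ := height_val R
  obtain ⟨cM, hcM0, hcM⟩ : ∃ cM : ℝ, 0 ≤ cM ∧ ∀ μ ∈ 𝓜, ∑ i, |(μ i : ℝ)| ≤ cM :=
    ⟨∑ μ ∈ 𝓜, ∑ i, |(μ i : ℝ)|, Finset.sum_nonneg fun _ _ => Finset.sum_nonneg fun _ _ =>
      abs_nonneg _, fun μ hμ => Finset.single_le_sum (f := fun μ : Fin m → ℤ => ∑ i, |(μ i : ℝ)|)
        (fun _ _ => Finset.sum_nonneg fun _ _ => abs_nonneg _) hμ⟩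
  obtain ⟨t, htt⟩ := exists_nat_ge ((N + cM + CR * 2) / δ)
  have hhom : ∀ a, (bcR K R a).IsHomogeneous N := fun a => by
    rw [bcR_apply]
    exact (hR a).map _
  have hloc := fun (μ : 𝓜) (v : Pl k) => near_ineq (fa v) (R := bcR K R) hN hn0 hnN hhom
    (μ := μ.1) (L := L μ) (by rw [bcR_apply]; exact hL μ) (hpq μ).1 (hpq μ).2
    (hgen μ).emb t
  choose ρ₀ A c hρpos hρ1 hcpos hloc using hloc
  -- the forms
  obtain ⟨W, hW1, hW2⟩ : ∃ W : (𝓜 × Fin N) ⊕ Fin n → (Fin m → K) → Fin n → K,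
      (∀ μ j u, W (Sum.inl (μ, j)) u = wv (bcR K R) μ.1 (L μ) (ku K p) (ku K q) t u j) ∧
      ∀ i u, W (Sum.inr i) u = Pi.single i 1 :=
    ⟨Sum.elim (fun x u => wv (bcR K R) x.1.1 (L x.1) (ku K p) (ku K q) t u x.2)
      fun i _ => Pi.single i 1, fun _ _ _ => rfl, fun _ _ => rfl⟩
  have hWL : ∀ b i, IsL fun u => W b u i := by
    rintro (⟨μ, j⟩ | l) i
    · simp only [hW1]
      exact isL_wv (bcR K R) μ.1 (L μ) (ku K p) (ku K q) t j i
    · simp only [hW2]
      exact IsL.const _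
  choose B hB using hWL
  obtain ⟨E, P, hP⟩ := exists_poly (Finset.univ.image fun x : ((𝓜 × Fin N) ⊕ Fin n) × Fin n =>
    B x.1 x.2)
  obtain ⟨a, ha⟩ : ∃ a : (𝓜 × Fin N) ⊕ Fin n → Fin n → MvPolynomial (Fin m) K,
      ∀ b i, a b i = P (B b i) := ⟨fun b i => P (B b i), fun _ _ => rfl⟩
  have hW : ∀ b (u : Fin m → K), (∀ i, u i ≠ 0) → ∀ i,
      MvPolynomial.eval u (a b i) = mn u E * W b u i := by
    intro b u hu i
    rw [ha, hP _ (Finset.mem_image.2 ⟨(b, i), Finset.mem_univ _, rfl⟩) u hu]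
    have h1 : W b u i = ev (B b i) u := hB b i u hu
    rw [h1]
  obtain ⟨Z, C1, C2, hC1, hC2, hZ, hmain⟩ := core hi (Sp S) fa hfa hn0 a ε hε
  -- comparison
  obtain ⟨cc, hcc0, hccn, hccs⟩ : ∃ cc : Option 𝓜 → Pl k → ℝ, (∀ o v, 0 < cc o v) ∧
      (∀ v, cc none v = 1) ∧ ∀ μ v, cc (some μ) v = c μ v := by
    refine ⟨fun o => Option.elim o (fun _ => 1) c, ?_, fun _ => rfl, fun _ _ => rfl⟩
    rintro (_ | μ) v
    · exact one_pos
    · exact hcpos μ v
  choose Ac hAc using fun (x : Option 𝓜 × (Fin n → (𝓜 × Fin N) ⊕ Fin n)) (v : Pl k) =>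
    cmp (fa v) hW x.2 (hcc0 x.1 v)
  obtain ⟨CA, hCA0, hCAle⟩ := bound2 (Sp S) A
  obtain ⟨Cc, hCc0, hCcle⟩ := bound2 (Sp S) Ac
  obtain ⟨Cρ, hCρ0, hCρle⟩ := bound2 (Sp S) fun μ v => -Real.log (ρ₀ μ v)
  obtain ⟨w, hw⟩ : ∃ w : ℝ, w = wS S := ⟨_, rfl⟩
  have hwS : 0 ≤ w := by rw [hw]; exact wS_nonneg S
  obtain ⟨CC, hCC⟩ : ∃ CC : ℝ, CC = CA + Cc := ⟨_, rfl⟩
  have hCC0 : 0 ≤ CC := by
    rw [hCC]
    positivity
  refine ⟨Z, C1, C2 + CC * w + 1 + Cρ / δ, hC1, by positivity, hZ, ?_⟩
  intro u x i0 hx0 hu hres hoff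
  obtain ⟨H, hH⟩ : ∃ H : ℝ, H = hs u + logHeight x := ⟨_, rfl⟩
  rw [← hH]
  by_cases hHC : H ≤ C2 + CC * w + 1 + Cρ / δ
  · exact Or.inl hHC
  right
  push Not at hHC
  intro T μ hT hnear
  have hp1 : 0 ≤ Cρ / δ := div_nonneg hCρ0 hδ.le
  have hp2 : 0 ≤ CC * w := mul_nonneg hCC0 hwS
  have hH1 : 1 ≤ H := by linarith
  have hHρ : Cρ ≤ δ * H := by
    have : Cρ / δ ≤ H := by linarith
    rw [div_le_iff₀ hδ] at this
    linarith
  have hx1 : 0 ≤ logHeight x := logHeight_nonneg _
  have hu1 : 0 ≤ hs u := hs_nonneg u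
  have huK0 : ∀ i, ku K u i ≠ 0 := fun i => (_root_.map_ne_zero _).2 (hu i)
  have hmnE : mn (ku K u) E ≠ 0 := mn_ne huK0 E
  obtain ⟨hne, -, hineq⟩ := hmain u x hu hoff
  have hdot : ∀ b, W b (ku K u) ≠ 0 → W b (ku K u) ⬝ᵥ ku K x ≠ 0 := by
    intro b hb h0
    refine hne b ?_ ?_
    · intro h1
      apply hb
      funext i
      have h2 := hW b (ku K u) huK0 i
      rw [h1, Pi.zero_apply, map_zero] at h2
      exact (mul_eq_zero.1 h2.symm).resolve_left hmnE
    · have h7 : lv (a b) (ku K u) (ku K x) = mn (ku K u) E * (W b (ku K u) ⬝ᵥ ku K x) := by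
        unfold lv dotProduct
        rw [Finset.mul_sum]
        refine Finset.sum_congr rfl fun i _ => ?_
        rw [hW b _ huK0, mul_assoc]
      rw [h7, h0, mul_zero]
  have hmn : ∀ (v : Pl k) (I : Fin m →₀ ℕ), fa v (mn (ku K u) I) = av v (mn u I) := by
    intro v I
    have h1 : mn (ku K u) I = algebraMap k K (mn u I) := mn_map (algebraMap k K) u I
    rw [h1, hfe]
  -- the local inequalities
  have hlocal : ∀ v : Pl k, ∃ (J : Fin n → (𝓜 × Fin N) ⊕ Fin n) (I : Fin m →₀ ℕ),
      I ∈ (Matrix.of fun j => a (J j)).det.support ∧ (v ∈ Sp S →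
        (if v ∈ T then Real.log (av v (mono u (μ v))) + N * Real.log (nrm (av v) x) -
            Real.log (av v (MvPolynomial.eval x (Rv R 0 u))) else 0) ≤
          CC + (∑ j, (Real.log (sn (av v) x) -
            Real.log (fa v (lv (a (J j)) (ku K u) (ku K x)))) + Real.log (av v (mn u I)))) := by
    intro v
    by_cases hv : v ∈ T
    · -- near places
      obtain ⟨hμ, hface⟩ := hnear v hv
      have hvS := hT hv
      obtain ⟨hdet, hlo⟩ := hloc ⟨μ v, hμ⟩ v (ku K u) (Real.exp (-(δ * H)))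
        (Real.exp_pos _).le (by
          have h2 := hCρle v hvS ⟨μ v, hμ⟩
          have h3 : -(δ * H) ≤ Real.log (ρ₀ ⟨μ v, hμ⟩ v) := by linarith
          calc Real.exp (-(δ * H)) ≤ Real.exp (Real.log (ρ₀ ⟨μ v, hμ⟩ v)) := Real.exp_le_exp.2 h3
            _ = ρ₀ ⟨μ v, hμ⟩ v := Real.exp_log (hρpos _ _)) (by
          intro b hb hne'
          rw [bcR_support] at hb
          have h1 : mono (ku K u) (b - μ v) = algebraMap k K (mono u (b - μ v)) :=
            (map_mono (algebraMap k K) u _).symm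
          show fa v (mono (ku K u) (b - μ v)) ≤ _
          rw [h1, hfe]
          have h2 := hface b hb hne'
          have h3 : 0 < av v (mono u (b - μ v)) := (av v).pos (mono_ne hu _)
          rw [← Real.log_le_iff_le_exp h3, log_av_mono hu, dt_sub]
          rw [log_av_mono hu, log_av_mono hu] at h2
          linarith) (star_bc hN hu (hspl u hu) _ _ _)
      have hWne : ∀ j, W (Sum.inl (⟨μ v, hμ⟩, j)) (ku K u) ≠ 0 := by
        intro j h0
        obtain ⟨e0⟩ : Nonempty (Fin n ↪ Fin N) := Function.Embedding.nonempty_of_card_le (by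
          rw [Fintype.card_fin, Fintype.card_fin]
          exact hnN)
        have h1 := hdet (e0.trans (Equiv.swap (e0 ⟨0, hn0⟩) j).toEmbedding)
        rw [Matrix.det_eq_zero_of_row_eq_zero (⟨0, hn0⟩ : Fin n), map_zero] at h1
        · exact absurd h1 (not_le.2 (hcpos _ _))
        · intro i
          have h2 : (e0.trans (Equiv.swap (e0 ⟨0, hn0⟩) j).toEmbedding) ⟨0, hn0⟩ = j := by
            simp
          rw [Matrix.of_apply, h2]
          have h3 := congrFun h0 i
          rw [hW1] at h3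
          exact h3
      obtain ⟨j, hj⟩ := exists_nrm (av v) i0.pos x
      have hnpos : 0 < nrm (av v) x := nrm_pos (av v) (fun h => by
        have := congrFun h i0
        rw [hx0] at this
        exact one_ne_zero this)
      have hxj : x j ≠ 0 := by
        intro h0
        rw [h0, map_zero] at hj
        exact hnpos.ne hj
      have hfx : fa v (ku K x j) = nrm (av v) x := by
        show fa v (algebraMap k K (x j)) = _
        rw [hfe, hj]
      have hR1 : MvPolynomial.eval (ku K x) (Rv (bcR K R) (μ v) (ku K u)) =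
          algebraMap k K (mono u (-(μ v)) * MvPolynomial.eval x (Rv R 0 u)) := by
        rw [Rv_bcR, eval_bc, Rv_mu R (μ v) hu, map_mul, MvPolynomial.eval_C]
      have h4 : 0 < av v (mono u (-(μ v))) := (av v).pos (mono_ne hu _)
      have h5 : 0 < av v (MvPolynomial.eval x (Rv R 0 u)) := (av v).pos hres
      obtain ⟨e, hes⟩ := hlo (ku K x) j ((_root_.map_ne_zero _).2 hxj) (by
          intro i
          rw [hfx]
          show fa v (algebraMap k K (x i)) ≤ _
          rw [hfe]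
          exact le_nrm (av v) x i) (by
          intro l
          have := hdot _ (hWne l)
          rwa [hW1] at this) (by
          rw [hR1]
          exact (_root_.map_ne_zero _).2 (mul_ne_zero (mono_ne hu _) hres)) (by
          rw [hR1, hfx, hfe, map_mul]
          rw [← Real.log_le_log_iff (by positivity) (by positivity),
            Real.log_mul (by positivity) (by positivity),
            Real.log_mul (by positivity) (by positivity), Real.log_pow, Real.log_pow,
            Real.log_exp, log_av_mono hu, dt_neg]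
          have h6 := neg_log_le_height (S := S) (MvPolynomial.eval x (Rv R 0 u)) hres hvS
          have h7 := hCR u x (logHeight x) hx1 fun i => height_coord_le hx0 i
          rw [← hH] at h7
          have h8 : CR * (H + 1) ≤ CR * 2 * H := by
            rw [mul_assoc]
            exact mul_le_mul_of_nonneg_left (by linarith) hCR0
          have h9 : dt (dir u v) (μ v) ≤ cM * H := by
            rw [← log_av_mono hu]
            refine (log_le_height (S := S) _ (mono_ne hu _) hvS).trans ?_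
            refine (height_mono_le u (μ v)).trans ?_
            exact mul_le_mul (hcM _ hμ) (by linarith) hu1 hcM0
          have h10 : Real.log (nrm (av v) x) ≤ H :=
            (log_nrm_le (S := S) hx0 hvS).trans (by linarith)
          have h11 : (N + cM + CR * 2) * H ≤ (t : ℝ) * (δ * H) := by
            rw [div_le_iff₀ hδ] at htt
            calc (N + cM + CR * 2) * H ≤ (t * δ) * H :=
                  mul_le_mul_of_nonneg_right htt (by linarith)
              _ = _ := by ring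
          have h12 : (N : ℝ) * Real.log (nrm (av v) x) ≤ N * H :=
            mul_le_mul_of_nonneg_left h10 (Nat.cast_nonneg _)
          have h14 : 0 ≤ δ * H := by positivity
          push_cast
          nlinarith)
      obtain ⟨J, hJ⟩ : ∃ J : Fin n → (𝓜 × Fin N) ⊕ Fin n, ∀ i, J i =
          Sum.inl (⟨μ v, hμ⟩, e i) := ⟨fun i => Sum.inl (⟨μ v, hμ⟩, e i), fun _ => rfl⟩
      obtain ⟨I, hI, hIs⟩ := hAc (some ⟨μ v, hμ⟩, J) v (ku K u)
        (ku K x) (Real.log (nrm (av v) x)) huK0 (by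
          rw [hccs]
          simp only [hJ, hW1]
          exact hdet e) (fun i => hdot _ (by
          show W (J i) (ku K u) ≠ 0
          rw [hJ]
          exact hWne _))
      refine ⟨J, I, hI, fun _ => ?_⟩
      rw [if_pos hv]
      rw [hR1, hfx, hfe, map_mul, Real.log_mul h4.ne' h5.ne', log_av_mono hu, dt_neg] at hes
      have h8 : ∑ i, (Real.log (nrm (av v) x) - Real.log (fa v (wv (bcR K R) (μ v)
          (L ⟨μ v, hμ⟩) (ku K p) (ku K q) t (ku K u) (e i) ⬝ᵥ ku K x))) =
          ∑ i, (Real.log (nrm (av v) x) - Real.log (fa v (W (J i) (ku K u) ⬝ᵥ ku K x))) := by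
        refine Finset.sum_congr rfl fun i _ => ?_
        rw [hJ, hW1]
      rw [h8] at hes
      rw [hmn] at hIs
      have h6 := hCAle v hvS ⟨μ v, hμ⟩
      have h7 := hCcle v hvS (some ⟨μ v, hμ⟩, J)
      rw [log_av_mono hu]
      have h9 : ∑ i, (Real.log (nrm (av v) x) - Real.log (fa v (W (J i) (ku K u) ⬝ᵥ ku K x))) ≤
          Ac (some ⟨μ v, hμ⟩, J) v + (∑ j, (Real.log (sn (av v) x) -
            Real.log (fa v (lv (a (J j)) (ku K u) (ku K x)))) + Real.log (av v (mn u I))) := hIs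
      linarith
    · -- the other places
      obtain ⟨J, hJ⟩ : ∃ J : Fin n → (𝓜 × Fin N) ⊕ Fin n, ∀ i, J i = Sum.inr i :=
        ⟨fun i => Sum.inr i, fun _ => rfl⟩
      have hdotJ : ∀ i, W (J i) (ku K u) ⬝ᵥ ku K x = ku K x i := by
        intro i
        rw [hJ, hW2, single_one_dotProduct]
      have hWJ : ∀ i, W (J i) (ku K u) ≠ 0 := by
        intro i h0
        have h1 := congrFun h0 i
        rw [hJ, hW2, Pi.single_eq_same, Pi.zero_apply] at h1
        exact one_ne_zero h1
      obtain ⟨I, hI, hIs⟩ := hAc (none, J) v (ku K u)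
        (ku K x) (Real.log (nrm (av v) x)) huK0 (by
          rw [hccn]
          have h1 : (Matrix.of fun i => W (J i) (ku K u)) = 1 := by
            ext1 i j
            rw [Matrix.of_apply, hJ, hW2, Matrix.one_apply, Pi.single_apply]
            simp only [eq_comm]
          rw [h1, Matrix.det_one, map_one]) (fun i => hdot _ (hWJ i))
      refine ⟨J, I, hI, fun hvS => ?_⟩
      rw [if_neg hv]
      rw [hmn] at hIs
      have h5 : 0 ≤ ∑ i, (Real.log (nrm (av v) x) -
          Real.log (fa v (W (J i) (ku K u) ⬝ᵥ ku K x))) := by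
        refine Finset.sum_nonneg fun i _ => ?_
        rw [hdotJ, sub_nonneg]
        have h6 := hdot _ (hWJ i)
        rw [hdotJ] at h6
        refine Real.log_le_log ((fa v).pos h6) ?_
        show fa v (algebraMap k K (x i)) ≤ _
        rw [hfe]
        exact le_nrm (av v) x i
      have h7 := hCcle v hvS (none, J)
      have h9 : ∑ i, (Real.log (nrm (av v) x) - Real.log (fa v (W (J i) (ku K u) ⬝ᵥ ku K x))) ≤
          Ac (none, J) v + (∑ j, (Real.log (sn (av v) x) -
            Real.log (fa v (lv (a (J j)) (ku K u) (ku K x)))) + Real.log (av v (mn u I))) := hIs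
      linarith
  choose J I hI hb using hlocal
  have hfinal := hineq J I hI
  have hsum : ∑ v ∈ T, wt v * (Real.log (av v (mono u (μ v))) + N * Real.log (nrm (av v) x) -
      Real.log (av v (MvPolynomial.eval x (Rv R 0 u)))) = ∑ v ∈ Sp S, wt v * (if v ∈ T then
        Real.log (av v (mono u (μ v))) + N * Real.log (nrm (av v) x) -
          Real.log (av v (MvPolynomial.eval x (Rv R 0 u))) else 0) := by
    rw [← Finset.sum_subset hT]
    · exact Finset.sum_congr rfl fun v hv => by rw [if_pos hv]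
    · intro v _ hv
      rw [if_neg hv, mul_zero]
  rw [hsum]
  have h1 : ∑ v ∈ Sp S, wt v * (if v ∈ T then
        Real.log (av v (mono u (μ v))) + N * Real.log (nrm (av v) x) -
          Real.log (av v (MvPolynomial.eval x (Rv R 0 u))) else 0) ≤
      CC * w + ∑ v ∈ Sp S, wt v * (∑ j, (Real.log (sn (av v) x) -
            Real.log (fa v (lv (a (J v j)) (ku K u) (ku K x)))) + Real.log (av v (mn u (I v)))) := by
    rw [hw]
    unfold wS
    rw [Finset.mul_sum, ← Finset.sum_add_distrib]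
    refine Finset.sum_le_sum fun v hv => ?_
    have h2 := mul_le_mul_of_nonneg_left (hb v hv) (wt_nonneg v)
    rw [mul_add] at h2
    linarith
  have h2 : ∑ i, logHeight₁ (u i) = hs u := rfl
  rw [h2] at hfinal
  linarith

end Pool.Agent.Run7.h489.GF
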