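import Mathlib
import Pool.Agent.Run7.h489.GF.Big
import Pool.Agent.Run7.h489.NF.Base

set_option autoImplicit false
set_option linter.unusedSectionVars false

/-!
The inequality over the base field.
-/

namespace Pool.Agent.Run7.h489.GF

open Height NumberField IsDedekindDomain
open Pool.Agent.W180.OP (Pl av wt fv nrm wt_nonneg le_nrm exists_nrm nrm_pos)
open Pool.Agent.R404.TC (Sp)
open Pool.Agent.Run7.h489.TM
open Pool.Agent.Run7.h489.NF (nrm_smul lv_smul height_coord_le)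
open Pool.Agent.N63.MT (lv ku ex ex_facts descend)

variable {k : Type} [Field k] [NumberField k] {S : Finset (HeightOneSpectrum (𝓞 k))} {m n : ℕ}

/-- a field which contains finitely many algebraic numbers -/
theorem exists_field {α : Type} [Finite α] (z : α → AlgebraicClosure k) :
    ∃ (M : Type) (_ : Field M) (_ : NumberField M) (_ : Algebra k M),
      IsGalois ℚ M ∧ (∃ z : M, z ^ 2 = -1) ∧ ∃ φ : M →ₐ[k] AlgebraicClosure k,
        ∀ s, ∃ y : M, φ y = z s := by
  classical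
  have : Fintype α := Fintype.ofFinite α
  have hint : ∀ s, IsIntegral k (z s) := fun s =>
    (AlgebraicClosure.isAlgebraic k).isAlgebraic (z s) |>.isIntegral
  obtain ⟨P, hP⟩ : ∃ P : Polynomial k, P = ∏ s, minpoly k (z s) := ⟨_, rfl⟩
  have hP0 : P ≠ 0 := by
    rw [hP, Finset.prod_ne_zero_iff]
    exact fun s _ => minpoly.ne_zero (hint s)
  obtain ⟨M, hM1, hM2, hM3, hM4, hi, h2⟩ := exists_split P
  have hfd : FiniteDimensional ℚ M := inferInstance
  have hfk : FiniteDimensional k M := Module.Finite.of_restrictScalars_finite ℚ k M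
  have halg : Algebra.IsAlgebraic k M := Algebra.IsAlgebraic.of_finite k M
  refine ⟨M, hM1, hM2, hM3, hM4, hi, IsAlgClosed.lift, fun s => ?_⟩
  obtain ⟨φ, hφ⟩ : ∃ φ : M →ₐ[k] AlgebraicClosure k, φ = IsAlgClosed.lift := ⟨_, rfl⟩
  rw [← hφ]
  obtain ⟨Q, hQ⟩ : ∃ Q : Polynomial M, Q = (minpoly k (z s)).map (algebraMap k M) := ⟨_, rfl⟩
  have hQs : Q.Splits := by
    rw [hQ]
    refine h2.of_dvd ?_ (Polynomial.map_dvd _ ?_)
    · rw [Polynomial.map_ne_zero_iff (algebraMap k M).injective]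
      exact hP0
    · rw [hP]
      exact Finset.dvd_prod_of_mem _ (Finset.mem_univ s)
  have hQ0 : Q ≠ 0 := by
    rw [hQ, Polynomial.map_ne_zero_iff (algebraMap k M).injective]
    exact minpoly.ne_zero (hint s)
  have h3 : (Q.map (φ : M →+* AlgebraicClosure k)).eval (z s) = 0 := by
    rw [hQ, Polynomial.map_map, AlgHom.comp_algebraMap, Polynomial.eval_map_algebraMap]
    exact minpoly.aeval k (z s)
  have h4 : z s ∈ (Q.map (φ : M →+* AlgebraicClosure k)).roots := by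
    rw [Polynomial.mem_roots (Polynomial.map_ne_zero hQ0)]
    exact h3
  rw [hQs.roots_map, Multiset.mem_map] at h4
  obtain ⟨y, -, hy⟩ := h4
  exact ⟨y, hy⟩

/-- the local term -/
noncomputable def gterm (R : (Fin m → ℤ) →₀ MvPolynomial (Fin n) k) (N : ℕ) (μ : Fin m → ℤ)
    (f : AbsoluteValue k ℝ) (u : Fin m → k) (x : Fin n → k) : ℝ :=
  Real.log (f (mono u μ)) + N * Real.log (nrm f x) -
    Real.log (f (MvPolynomial.eval x (Rv R 0 u)))

theorem eval_smul_hom {P : MvPolynomial (Fin n) k} {N : ℕ} (hP : P.IsHomogeneous N) (c : k)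
    (x : Fin n → k) : MvPolynomial.eval (c • x) P = c ^ N * MvPolynomial.eval x P := by
  rw [MvPolynomial.eval_eq', MvPolynomial.eval_eq', Finset.mul_sum]
  refine Finset.sum_congr rfl fun s hs => ?_
  have h1 : ∏ i, (c • x) i ^ s i = c ^ N * ∏ i, x i ^ s i := by
    have h2 : ∑ i, s i = N := by
      have h2 := hP (MvPolynomial.mem_support_iff.1 hs)
      rw [Finsupp.weight_apply, Finsupp.sum_fintype _ _ (fun i => by simp)] at h2
      simpa using h2
    rw [← h2, ← Finset.prod_pow_eq_pow_sum, ← Finset.prod_mul_distrib]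
    refine Finset.prod_congr rfl fun i _ => ?_
    rw [Pi.smul_apply, smul_eq_mul, mul_pow]
  rw [h1]
  ring

theorem gterm_smul {R : (Fin m → ℤ) →₀ MvPolynomial (Fin n) k} {N : ℕ}
    (hR : ∀ a, (R a).IsHomogeneous N) (μ : Fin m → ℤ)
    (f : AbsoluteValue k ℝ) (u : Fin m → k) {x : Fin n → k} (hx : x ≠ 0)
    (hres : MvPolynomial.eval x (Rv R 0 u) ≠ 0) {c : k} (hc : c ≠ 0) :
    gterm R N μ f u (c • x) = gterm R N μ f u x := by
  unfold gterm
  have h1 : 0 < f c := f.pos hc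
  have h2 : 0 < nrm f x := nrm_pos f hx
  have h3 : 0 < f (MvPolynomial.eval x (Rv R 0 u)) := f.pos hres
  rw [nrm_smul, eval_smul_hom (hom_Rv hR 0 u), map_mul, map_pow, Real.log_mul h1.ne' h2.ne',
    Real.log_mul (by positivity) h3.ne', Real.log_pow]
  ring

/-- the fibre at the vertex is a union of hyperplanes in general position -/
def VGP (N : ℕ) (P : MvPolynomial (Fin n) k) : Prop :=
  ∃ L : Fin N → Fin n → AlgebraicClosure k,
    MvPolynomial.map (algebraMap k (AlgebraicClosure k)) P = ∏ j, lf (L j) ∧ GP L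

theorem gf_base (R : (Fin m → ℤ) →₀ MvPolynomial (Fin n) k) {N : ℕ} (hn : 2 ≤ n) (hnN : n ≤ N)
    (hR : ∀ a, (R a).IsHomogeneous N)
    (hspl : ∀ u : Fin m → k, (∀ i, u i ≠ 0) → Spl N (Rv R 0 u))
    (𝓜 : Finset (Fin m → ℤ)) (h𝓜 : ∀ μ ∈ 𝓜, VGP N (R μ)) {ε δ : ℝ} (hε : 0 < ε) (hδ : 0 < δ) :
    ∃ (Z : Finset (Fin n → MvPolynomial (Fin m) k)) (C1 C2 : ℝ), 0 ≤ C1 ∧ 0 ≤ C2 ∧
      (∀ P ∈ Z, P ≠ 0) ∧ ∀ (u : Fin m → k) (x : Fin n → k), x ≠ 0 →
        (∀ i, u i ≠ 0) → MvPolynomial.eval x (Rv R 0 u) ≠ 0 → (∀ P ∈ Z, lv P u x ≠ 0) →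
        ∀ (T : Finset (Pl k)) (μ : Pl k → Fin m → ℤ), T ⊆ Sp S →
          (∀ v ∈ T, μ v ∈ 𝓜 ∧ ∀ a ∈ R.support, a ≠ μ v → Real.log (av v (mono u a)) ≤
            Real.log (av v (mono u (μ v))) - δ * (hs u + logHeight x)) →
          ∑ v ∈ T, wt v * gterm R N (μ v) (av v) u x ≤
            (n + ε) * logHeight x + ε * hs u + C1 * ∑ i, ex (Sp S) (u i) + C2 := by
  classical
  have hch : ∀ μ : 𝓜, ∃ L : Fin N → Fin n → AlgebraicClosure k,
    MvPolynomial.map (algebraMap k (AlgebraicClosure k)) (R μ.1) = ∏ j, lf (L j) ∧ GP L :=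
    fun μ => h𝓜 μ.1 μ.2
  choose La hLa hLg using hch
  obtain ⟨M, hM1, hM2, hM3, hM4, hi, φ, hφ⟩ := exists_field (k := k)
    (fun x : 𝓜 × Fin N × Fin n => La x.1 x.2.1 x.2.2)
  choose y hy using hφ
  obtain ⟨L, hL⟩ : ∃ L : 𝓜 → Fin N → Fin n → M, ∀ μ j i, φ (L μ j i) = La μ j i :=
    ⟨fun μ j i => y (μ, j, i), fun μ j i => hy (μ, j, i)⟩
  obtain ⟨Z, C1, C2, hC1, hC2, hZ, hmain⟩ := gf_big (K := M) (S := S) hi R hn hnN hR hspl 𝓜 L (by
    intro μ
    apply MvPolynomial.map_injective (φ : M →+* AlgebraicClosure k) φ.injective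
    rw [MvPolynomial.map_map, AlgHom.comp_algebraMap, hLa, map_prod]
    refine Finset.prod_congr rfl fun j _ => ?_
    rw [map_lf]
    congr 1
    funext i
    exact (hL μ j i).symm) (by
    intro μ s hs
    have h1 := hLg μ s hs
    rw [Fintype.linearIndependent_iff] at h1 ⊢
    intro g hg i
    have h2 := h1 (fun t => φ (g t)) (by
      funext l
      have h3 := congrArg φ (congrFun hg l)
      rw [Pi.zero_apply, map_zero, Finset.sum_apply, map_sum] at h3
      rw [Pi.zero_apply, Finset.sum_apply, ← h3]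
      refine Finset.sum_congr rfl fun t _ => ?_
      rw [Pi.smul_apply, Pi.smul_apply, smul_eq_mul, smul_eq_mul, map_mul, hL]) i
    exact (map_eq_zero φ).1 h2) hε hδ
  have hdes := fun P : {P // P ∈ Z} => descend (k := k) P.1 (hZ P.1 P.2)
  choose Pd hPd1 hPd2 using hdes
  have hfin : {p : (Fin m → k) × (Fin n → k) | (∀ i, logHeight₁ (p.1 i) ≤ C2) ∧
      ∀ i, logHeight₁ (p.2 i) ≤ C2}.Finite := by
    have h1 : {x : k | logHeight₁ x ≤ C2}.Finite := finite_setOfPred_logHeight₁_le k C2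
    have h2 : (Set.pi Set.univ fun _ : Fin m => {x : k | logHeight₁ x ≤ C2}).Finite :=
      Set.Finite.pi fun _ => h1
    have h3 : (Set.pi Set.univ fun _ : Fin n => {x : k | logHeight₁ x ≤ C2}).Finite :=
      Set.Finite.pi fun _ => h1
    refine (h2.prod h3).subset ?_
    rintro ⟨u, x⟩ h
    exact ⟨fun i _ => h.1 i, fun i _ => h.2 i⟩
  obtain ⟨C3, hC3⟩ : ∃ C3 : ℝ, ∀ p ∈ {p : (Fin m → k) × (Fin n → k) |
      (∀ i, logHeight₁ (p.1 i) ≤ C2) ∧ ∀ i, logHeight₁ (p.2 i) ≤ C2},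
      ∑ v ∈ Sp S, ∑ μ ∈ 𝓜, |wt v * gterm R N μ (av v) p.1 p.2| ≤ C3 := by
    obtain ⟨C3, h⟩ := (hfin.image fun p : (Fin m → k) × (Fin n → k) =>
      ∑ v ∈ Sp S, ∑ μ ∈ 𝓜, |wt v * gterm R N μ (av v) p.1 p.2|).bddAbove
    exact ⟨C3, fun p hp => h (Set.mem_image_of_mem _ hp)⟩
  refine ⟨Finset.univ.image Pd, C1, C2 + |C3|, hC1, by positivity, ?_, ?_⟩
  · intro P hP
    obtain ⟨P', -, rfl⟩ := Finset.mem_image.1 hP
    exact hPd1 P'
  · intro u y hy hu hres0 hZy T μ hT hnear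
    obtain ⟨i0, hi0⟩ := Function.ne_iff.1 hy
    rw [Pi.zero_apply] at hi0
    obtain ⟨c, hc⟩ : ∃ c : k, c = (y i0)⁻¹ := ⟨_, rfl⟩
    have hc0 : c ≠ 0 := by
      rw [hc]
      exact inv_ne_zero hi0
    obtain ⟨x, hx⟩ : ∃ x : Fin n → k, x = c • y := ⟨_, rfl⟩
    have hx0 : x i0 = 1 := by
      rw [hx, Pi.smul_apply, smul_eq_mul, hc, inv_mul_cancel₀ hi0]
    have hhx : logHeight x = logHeight y := by
      rw [hx]
      exact logHeight_smul_eq_logHeight y hc0
    have hres : MvPolynomial.eval x (Rv R 0 u) ≠ 0 := by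
      rw [hx, eval_smul_hom (hom_Rv hR 0 u)]
      exact mul_ne_zero (pow_ne_zero _ hc0) hres0
    have hZx : ∀ P ∈ Finset.univ.image Pd, lv P u x ≠ 0 := by
      intro P hP
      rw [hx, lv_smul]
      exact mul_ne_zero hc0 (hZy P hP)
    have hterm : ∀ v, gterm R N (μ v) (av v) u y = gterm R N (μ v) (av v) u x := by
      intro v
      rw [hx, gterm_smul hR (μ v) (av v) u hy hres0 hc0]
    simp only [hterm]
    rw [← hhx] at hnear ⊢
    have h1 := hmain u x i0 hx0 hu hres fun P hP => hPd2 ⟨P, hP⟩ u x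
      (hZx _ (Finset.mem_image_of_mem _ (Finset.mem_univ _)))
    have hex : 0 ≤ ∑ i, ex (Sp S) (u i) := Finset.sum_nonneg fun i _ => (ex_facts _ (hu i)).2.2.1
    have hH : 0 ≤ logHeight x := logHeight_nonneg _
    have hHu : 0 ≤ hs u := hs_nonneg u
    have h3 : 0 ≤ (n + ε) * logHeight x := by positivity
    have h4 : 0 ≤ C1 * ∑ i, ex (Sp S) (u i) := mul_nonneg hC1 hex
    have h5 : 0 ≤ ε * hs u := by positivity
    rcases h1 with h1 | h1
    · have h6 := hC3 (u, x) ⟨fun i => by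
        have h7 : logHeight₁ (u i) ≤ hs u := Finset.single_le_sum (f := fun i => logHeight₁ (u i))
          (fun _ _ => zero_le_logHeight₁ _) (Finset.mem_univ i)
        linarith, fun i => by
        have h7 := height_coord_le hx0 i
        linarith⟩
      have h7 : ∑ v ∈ T, wt v * gterm R N (μ v) (av v) u x ≤
          ∑ v ∈ Sp S, ∑ μ ∈ 𝓜, |wt v * gterm R N μ (av v) u x| := by
        refine (Finset.sum_le_sum fun v hv => ?_).trans (Finset.sum_le_sum_of_subset_of_nonneg hT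
          fun v _ _ => Finset.sum_nonneg fun _ _ => abs_nonneg _)
        refine (le_abs_self _).trans ?_
        exact Finset.single_le_sum (f := fun μ => |wt v * gterm R N μ (av v) u x|)
          (fun _ _ => abs_nonneg _) (hnear v hv).1
      have h8 := le_abs_self C3
      linarith
    · have h6 := abs_nonneg C3
      have h7 := h1 T μ hT hnear
      unfold gterm
      linarith

end Pool.Agent.Run7.h489.GF
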