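import Mathlib
import Pool.Agent.Run7.h489.GF.Base

set_option autoImplicit false
set_option linter.unusedSectionVars false

/-!
Any number of hyperplanes.
-/

namespace Pool.Agent.Run7.h489.GF

open Height NumberField IsDedekindDomain
open Pool.Agent.W180.OP (Pl av wt fv nrm wt_nonneg le_nrm exists_nrm nrm_pos)
open Pool.Agent.R404.TC (Sp)
open Pool.Agent.Run7.h489.TM
open Pool.Agent.N63.MT (lv ku ex ex_facts descend)

section

variable {K : Type} [Field K] {n : ℕ}

theorem GP.iff {N : ℕ} {L : Fin N → Fin n → K} : GP L ↔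
    ∀ s : Finset (Fin N), s.card ≤ n → ∀ g : Fin N → K, ∑ j ∈ s, g j • L j = 0 →
      ∀ j ∈ s, g j = 0 := by
  constructor
  · intro h s hs
    exact linearIndepOn_finset_iff.1 (h s hs)
  · intro h s hs
    exact linearIndepOn_finset_iff.2 (h s hs)

theorem GP.snoc {N : ℕ} {L : Fin N → Fin n → K} (h : GP L) :
    ∃ Λ : Finset (Fin N) → Fin n → K, (∀ s, s.card < n → Λ s ≠ 0) ∧ ∀ q : Fin n → K,
      (∀ s, s.card < n → Λ s ⬝ᵥ q ≠ 0) → GP (Fin.snoc (α := fun _ => Fin n → K) L q) := by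
  classical
  have h1 : ∀ s : Finset (Fin N), ∃ ℓ : Fin n → K, s.card < n → ℓ ≠ 0 ∧
      ∀ j ∈ s, ℓ ⬝ᵥ L j = 0 := by
    intro s
    by_cases hs : s.card < n
    · obtain ⟨F, hF⟩ : ∃ F : (Fin n → K) →ₗ[K] (s → K), ∀ ℓ j, F ℓ j = ℓ ⬝ᵥ L j.1 :=
        ⟨LinearMap.pi fun j : s =>
          { toFun := fun ℓ => ℓ ⬝ᵥ L j.1
            map_add' := fun a b => add_dotProduct _ _ _
            map_smul' := fun a b => smul_dotProduct _ _ _ }, fun _ _ => rfl⟩
      have h2 := LinearMap.ker_ne_bot_of_finrank_lt (f := F) (by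
        rw [Module.finrank_fintype_fun_eq_card, Module.finrank_fintype_fun_eq_card,
          Fintype.card_coe, Fintype.card_fin]
        exact hs)
      obtain ⟨ℓ, hℓ, hℓ0⟩ := Submodule.exists_mem_ne_zero_of_ne_bot h2
      refine ⟨ℓ, fun _ => ⟨hℓ0, fun j hj => ?_⟩⟩
      rw [← hF ℓ ⟨j, hj⟩, LinearMap.mem_ker.1 hℓ, Pi.zero_apply]
    · exact ⟨0, fun h => absurd h hs⟩
  choose Λ hΛ using h1
  refine ⟨Λ, fun s hs => (hΛ s hs).1, fun q hq => ?_⟩
  rw [GP.iff] at h ⊢
  intro s' hs' g hg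
  obtain ⟨s, hs⟩ : ∃ s : Finset (Fin N), ∀ j : Fin N, j ∈ s ↔ j.castSucc ∈ s' :=
    ⟨Finset.univ.filter fun j : Fin N => j.castSucc ∈ s', fun j => by simp⟩
  have hsum : ∀ G : Fin (N + 1) → Fin n → K, ∑ t ∈ s', G t =
      ∑ j ∈ s, G j.castSucc + if Fin.last N ∈ s' then G (Fin.last N) else 0 := by
    intro G
    have e1 : ∑ t ∈ s', G t = ∑ t, if t ∈ s' then G t else 0 := by
      rw [Finset.sum_ite_mem, Finset.univ_inter]
    have e2 : ∑ j ∈ s, G j.castSucc =
        ∑ j : Fin N, if j.castSucc ∈ s' then G j.castSucc else 0 := by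
      simp only [← hs]
      rw [Finset.sum_ite_mem, Finset.univ_inter]
    rw [e1, e2, Fin.sum_univ_castSucc]
  have hcard : s.card + (if Fin.last N ∈ s' then 1 else 0) ≤ s'.card := by
    have e1 : s.map Fin.castSuccEmb ⊆ s'.erase (Fin.last N) := by
      intro t ht
      obtain ⟨j, hj, rfl⟩ := Finset.mem_map.1 ht
      exact Finset.mem_erase.2 ⟨(Fin.castSucc_lt_last j).ne, (hs j).1 hj⟩
    have e2 := Finset.card_le_card e1
    rw [Finset.card_map] at e2
    split_ifs with hl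
    · rw [Finset.card_erase_of_mem hl] at e2
      have := Finset.card_pos.2 ⟨_, hl⟩
      omega
    · rw [Finset.erase_eq_of_notMem hl] at e2
      omega
  have hg' := hsum fun t => g t • (Fin.snoc (α := fun _ => Fin n → K) L q : _ → Fin n → K) t
  rw [hg] at hg'
  simp only [Fin.snoc_castSucc, Fin.snoc_last] at hg'
  have hlast : Fin.last N ∈ s' → g (Fin.last N) = 0 := by
    intro hl
    rw [if_pos hl] at hg' hcard
    have hlt : s.card < n := by omega
    have h2 := congrArg (fun z => Λ s ⬝ᵥ z) hg'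
    rw [dotProduct_zero, dotProduct_add, dotProduct_smul, dotProduct_sum,
      Finset.sum_eq_zero (fun j hj => by
        rw [dotProduct_smul, (hΛ s hlt).2 j hj, smul_zero]), zero_add, smul_eq_mul] at h2
    exact (mul_eq_zero.1 h2.symm).resolve_right (hq s hlt)
  have hrest : ∀ j ∈ s, g j.castSucc = 0 := by
    refine h s (by omega) (fun j => g j.castSucc) ?_
    rw [hg']
    split_ifs with hl
    · rw [hlast hl, zero_smul, add_zero]
    · rw [add_zero]
  intro t ht
  induction t using Fin.lastCases with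
  | last => exact hlast ht
  | cast j => exact hrest j ((hs j).2 ht)

end

variable {k : Type} [Field k] [NumberField k] {S : Finset (HeightOneSpectrum (𝓞 k))} {m n : ℕ}

/-- multiplication by a linear form -/
noncomputable def mulR (q : Fin n → k) (R : (Fin m → ℤ) →₀ MvPolynomial (Fin n) k) :
    (Fin m → ℤ) →₀ MvPolynomial (Fin n) k := R.mapRange (fun P => P * lf q) (zero_mul _)

theorem mulR_apply (q : Fin n → k) (R : (Fin m → ℤ) →₀ MvPolynomial (Fin n) k) (a : Fin m → ℤ) :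
    mulR q R a = R a * lf q := Finsupp.mapRange_apply ..

theorem mulR_support (q : Fin n → k) (R : (Fin m → ℤ) →₀ MvPolynomial (Fin n) k) :
    (mulR q R).support ⊆ R.support := Finsupp.support_mapRange

theorem Rv_mulR (q : Fin n → k) (R : (Fin m → ℤ) →₀ MvPolynomial (Fin n) k) (μ : Fin m → ℤ)
    (u : Fin m → k) : Rv (mulR q R) μ u = Rv R μ u * lf q := by
  unfold Rv
  rw [Finset.sum_subset (mulR_support q R), Finset.sum_mul]
  · refine Finset.sum_congr rfl fun a _ => ?_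
    rw [mulR_apply, mul_assoc]
  · intro a _ ha
    rw [Finsupp.notMem_support_iff.1 ha, mul_zero]

theorem hom_lf (q : Fin n → k) : (lf q).IsHomogeneous 1 := by
  have := hom_prod_lf (N := 1) fun _ => q
  simpa using this

theorem map_snoc {N : ℕ} {P : MvPolynomial (Fin n) k} {L : Fin N → Fin n → AlgebraicClosure k}
    (hL : MvPolynomial.map (algebraMap k (AlgebraicClosure k)) P = ∏ j, lf (L j))
    (q : Fin n → k) : MvPolynomial.map (algebraMap k (AlgebraicClosure k)) (P * lf q) =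
      ∏ j, lf ((Fin.snoc (α := fun _ => Fin n → AlgebraicClosure k) L
        (ku (AlgebraicClosure k) q) : _ → _) j) := by
  rw [map_mul, hL, Fin.prod_univ_castSucc, map_lf]
  simp only [Fin.snoc_castSucc, Fin.snoc_last]
  rfl

/-- the statement for `N` hyperplanes in the fibres -/
def Stmt (S : Finset (HeightOneSpectrum (𝓞 k))) (m n N : ℕ) : Prop :=
  ∀ R : (Fin m → ℤ) →₀ MvPolynomial (Fin n) k, (∀ a, (R a).IsHomogeneous N) →
    (∀ u : Fin m → k, (∀ i, u i ≠ 0) → Spl N (Rv R 0 u)) →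
    ∀ (𝓜 : Finset (Fin m → ℤ)), (∀ μ ∈ 𝓜, VGP N (R μ)) → ∀ {ε δ : ℝ}, 0 < ε → 0 < δ →
    ∃ (Z : Finset (Fin n → MvPolynomial (Fin m) k)) (C1 C2 : ℝ), 0 ≤ C1 ∧ 0 ≤ C2 ∧
      (∀ P ∈ Z, P ≠ 0) ∧ ∀ (u : Fin m → k) (x : Fin n → k), x ≠ 0 →
        (∀ i, u i ≠ 0) → MvPolynomial.eval x (Rv R 0 u) ≠ 0 → (∀ P ∈ Z, lv P u x ≠ 0) →
        ∀ (T : Finset (Pl k)) (μ : Pl k → Fin m → ℤ), T ⊆ Sp S →
          (∀ v ∈ T, μ v ∈ 𝓜 ∧ ∀ a ∈ R.support, a ≠ μ v → Real.log (av v (mono u a)) ≤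
            Real.log (av v (mono u (μ v))) - δ * (hs u + logHeight x)) →
          ∑ v ∈ T, wt v * gterm R N (μ v) (av v) u x ≤
            (n + ε) * logHeight x + ε * hs u + C1 * ∑ i, ex (Sp S) (u i) + C2

theorem step {N : ℕ} (hn : 0 < n) (h : Stmt S m n (N + 1)) : Stmt S m n N := by
  classical
  intro R hR hspl 𝓜 h𝓜 ε δ hε hδ
  have hch : ∀ μ : 𝓜, ∃ L : Fin N → Fin n → AlgebraicClosure k,
    MvPolynomial.map (algebraMap k (AlgebraicClosure k)) (R μ.1) = ∏ j, lf (L j) ∧ GP L :=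
    fun μ => h𝓜 μ.1 μ.2
  choose L hL hLg using hch
  choose Λ hΛ0 hΛ using fun μ => (hLg μ).snoc
  obtain ⟨q, hq⟩ := avoid (k := k) (K := AlgebraicClosure k)
    (fun o : Option (𝓜 × {s : Finset (Fin N) // s.card < n}) =>
      Option.elim o (fun _ => 1) fun x => Λ x.1 x.2.1) (by
    rintro (_ | ⟨μ, s, hs⟩)
    · intro h0
      exact one_ne_zero (congrFun h0 ⟨0, hn⟩)
    · exact hΛ0 μ s hs)
  have hq0 : q ≠ 0 := by
    rintro rfl
    refine hq none ?_
    unfold dotProduct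
    refine Finset.sum_eq_zero fun i _ => ?_
    show _ * algebraMap k _ 0 = 0
    rw [map_zero, mul_zero]
  obtain ⟨Z, C1, C2, hC1, hC2, hZ, hmain⟩ := h (mulR q R) (fun a => by
      rw [mulR_apply]
      exact (hR a).mul (hom_lf q)) (fun u hu => by
      obtain ⟨L', hL'⟩ := hspl u hu
      rw [Rv_mulR]
      exact ⟨_, map_snoc hL' q⟩) 𝓜 (fun μ hμ => by
      rw [mulR_apply]
      exact ⟨_, map_snoc (hL ⟨μ, hμ⟩) q, hΛ ⟨μ, hμ⟩ _ fun s hs => hq (some (⟨μ, hμ⟩, ⟨s, hs⟩))⟩)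
      hε hδ
  obtain ⟨c, hc⟩ : ∃ c : Pl k → ℝ, ∀ v, c v = Real.log (n * (∑ i, av v (q i)) + 1) :=
    ⟨_, fun _ => rfl⟩
  have hsn : ∀ v : Pl k, 0 ≤ ∑ i, av v (q i) := fun v =>
    Finset.sum_nonneg fun _ _ => (av v).nonneg _
  have hc0 : ∀ v, 0 ≤ c v := fun v => by
    rw [hc]
    refine Real.log_nonneg ?_
    have := mul_nonneg (Nat.cast_nonneg (α := ℝ) n) (hsn v)
    linarith
  refine ⟨insert (fun i => MvPolynomial.C (q i)) Z, C1, C2 + ∑ v ∈ Sp S, wt v * c v, hC1,
    add_nonneg hC2 (Finset.sum_nonneg fun v _ => mul_nonneg (wt_nonneg v) (hc0 v)), ?_, ?_⟩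
  · intro P hP
    rcases Finset.mem_insert.1 hP with rfl | hP
    · intro h0
      apply hq0
      funext i
      have h1 := congrFun h0 i
      rw [Pi.zero_apply] at h1
      exact (MvPolynomial.C_eq_zero).1 h1
    · exact hZ P hP
  · intro u x hx hu hres hoff T μ hT hnear
    have hqx : q ⬝ᵥ x ≠ 0 := by
      have h1 := hoff _ (Finset.mem_insert_self _ _)
      unfold lv at h1
      simp only [MvPolynomial.eval_C] at h1
      exact h1
    have hres' : MvPolynomial.eval x (Rv (mulR q R) 0 u) ≠ 0 := by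
      rw [Rv_mulR, map_mul, eval_lf]
      exact mul_ne_zero hres hqx
    have h1 := hmain u x hx hu hres' (fun P hP => hoff P (Finset.mem_insert_of_mem hP)) T μ hT
      fun v hv => ⟨(hnear v hv).1, fun a ha hne => (hnear v hv).2 a (mulR_support q R ha) hne⟩
    have h2 : ∀ v, gterm R N (μ v) (av v) u x ≤ gterm (mulR q R) (N + 1) (μ v) (av v) u x + c v := by
      intro v
      unfold gterm
      have h3 : 0 < nrm (av v) x := nrm_pos (av v) hx
      have h4 : 0 < av v (q ⬝ᵥ x) := (av v).pos hqx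
      have h5 : 0 < av v (MvPolynomial.eval x (Rv R 0 u)) := (av v).pos hres
      rw [Rv_mulR, map_mul, eval_lf, map_mul, Real.log_mul h5.ne' h4.ne']
      have h6 := dot_le (av v) q x (A := ∑ i, av v (q i)) (X := nrm (av v) x)
        (fun i => Finset.single_le_sum (f := fun i => av v (q i)) (fun _ _ => (av v).nonneg _)
          (Finset.mem_univ i)) (fun i => le_nrm (av v) x i)
      have h7 : av v (q ⬝ᵥ x) ≤ (n * (∑ i, av v (q i)) + 1) * nrm (av v) x := by
        refine h6.trans ?_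
        rw [add_mul, mul_assoc]
        linarith
      have h8 := Real.log_le_log h4 h7
      have h9 := mul_nonneg (Nat.cast_nonneg (α := ℝ) n) (hsn v)
      rw [Real.log_mul (by linarith) h3.ne', ← hc] at h8
      push_cast
      linarith
    have h3 : ∑ v ∈ T, wt v * gterm R N (μ v) (av v) u x ≤
        ∑ v ∈ T, wt v * gterm (mulR q R) (N + 1) (μ v) (av v) u x + ∑ v ∈ Sp S, wt v * c v := by
      have h4 : ∑ v ∈ T, wt v * gterm R N (μ v) (av v) u x ≤
          ∑ v ∈ T, (wt v * gterm (mulR q R) (N + 1) (μ v) (av v) u x + wt v * c v) := by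
        refine Finset.sum_le_sum fun v _ => ?_
        rw [← mul_add]
        exact mul_le_mul_of_nonneg_left (h2 v) (wt_nonneg v)
      rw [Finset.sum_add_distrib] at h4
      have h5 : ∑ v ∈ T, wt v * c v ≤ ∑ v ∈ Sp S, wt v * c v :=
        Finset.sum_le_sum_of_subset_of_nonneg hT fun v _ _ => mul_nonneg (wt_nonneg v) (hc0 v)
      linarith
    linarith

theorem gf_all (S : Finset (HeightOneSpectrum (𝓞 k))) (m : ℕ) {n : ℕ} (hn : 2 ≤ n) (N : ℕ) :
    Stmt S m n N := by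
  have h1 : ∀ N, n ≤ N → Stmt S m n N := fun N hN R hR hspl 𝓜 h𝓜 ε δ hε hδ =>
    gf_base R hn hN hR hspl 𝓜 h𝓜 hε hδ
  have h2 : ∀ j, Stmt S m n (N + j) → Stmt S m n N := by
    intro j
    induction j with
    | zero => exact id
    | succ j ih => exact fun h => ih (step (by omega) h)
  exact h2 n (h1 _ (by omega))

end Pool.Agent.Run7.h489.GF
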