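import Mathlib
import Pool.Agent.Run7.h489.GF.Ext
import Pool.Agent.Run7.h489.TM.Cnt
import Pool.Agent.N63.MT.Full

set_option autoImplicit false
set_option linter.unusedSectionVars false

/-!
The inequality for almost all tuples of units.
-/

namespace Pool.Agent.Run7.h489.GF

open Height NumberField IsDedekindDomain
open Pool.Agent.W180.OP (Pl av wt fv nrm wt_nonneg le_nrm exists_nrm nrm_pos)
open Pool.Agent.R404.TC (Sp)
open Pool.Agent.Run7.h489.LV (IsU IsI mem_Sp_inl mem_Sp_inr)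
open Pool.Agent.Run7.h489.TM
open Pool.Agent.N63.MT (lv ku ex ex_facts descend)

variable {k : Type} [Field k] [NumberField k] {S : Finset (HeightOneSpectrum (𝓞 k))} {m n : ℕ}

/-- the maximum of the monomials -/
noncomputable def gmx (A : Finset (Fin m → ℤ)) (f : AbsoluteValue k ℝ) (u : Fin m → k) : ℝ :=
  ⨆ a : (A : Set (Fin m → ℤ)), f (mono u a.1)

/-- the full local term -/
noncomputable def gfull (R : (Fin m → ℤ) →₀ MvPolynomial (Fin n) k) (N : ℕ)
    (f : AbsoluteValue k ℝ) (u : Fin m → k) (x : Fin n → k) : ℝ :=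
  Real.log (gmx R.support f u) + N * Real.log (nrm f x) -
    Real.log (f (MvPolynomial.eval x (Rv R 0 u)))

theorem gmx_eq (A : Finset (Fin m → ℤ)) (f : AbsoluteValue k ℝ) (u : Fin m → k)
    {μ : Fin m → ℤ} (hμ : μ ∈ A) (h : ∀ a ∈ A, f (mono u a) ≤ f (mono u μ)) :
    gmx A f u = f (mono u μ) := by
  unfold gmx
  have hne : Nonempty (A : Set (Fin m → ℤ)) := ⟨⟨μ, hμ⟩⟩
  apply le_antisymm
  · exact ciSup_le fun a => h a.1 a.2
  · have hfin : (Set.range fun a : (A : Set (Fin m → ℤ)) => f (mono u a.1)).Finite :=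
      Set.finite_range _
    exact le_ciSup (f := fun a : (A : Set (Fin m → ℤ)) => f (mono u a.1))
      hfin.bddAbove ⟨μ, hμ⟩

open Classical in
theorem gf_most (S : Finset (HeightOneSpectrum (𝓞 k))) (hS : 2 ≤ (Sp S).card)
    (R : (Fin m → ℤ) →₀ MvPolynomial (Fin n) k) {N : ℕ} (hn : 2 ≤ n)
    (hR : ∀ a, (R a).IsHomogeneous N)
    (hspl : ∀ u : Fin m → k, (∀ i, u i ≠ 0) → Spl N (Rv R 0 u)) (hR0 : R ≠ 0)
    (hvert : ∀ μ ∈ R.support, (∃ θ : Fin m → ℝ, ∀ a ∈ R.support, a ≠ μ → dt θ a < dt θ μ) →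
      VGP N (R μ)) {ε η B : ℝ} (hε : 0 < ε) (hη : 0 < η) (hB : 0 ≤ B) :
    ∃ (Z : Finset (Fin n → MvPolynomial (Fin m) k)) (C T₀ : ℝ), (∀ P ∈ Z, P ≠ 0) ∧
      ∀ T : ℝ, T₀ ≤ T →
        (((Bx m S T).filter fun u => ∃ x : Fin n → k, x ≠ 0 ∧
          MvPolynomial.eval x (Rv R 0 u) ≠ 0 ∧
          logHeight x ≤ B * T ∧ (∀ P ∈ Z, lv P u x ≠ 0) ∧
          (n + ε) * logHeight x + ε * hs u + C <
            ∑ v ∈ Sp S, wt v * gfull R N (av v) u x).card : ℝ) ≤
            η * (UF S T).card ^ m := by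
  obtain ⟨A, hA⟩ : ∃ A : Finset (Fin m → ℤ), A = R.support := ⟨_, rfl⟩
  obtain ⟨𝓜, h𝓜⟩ : ∃ 𝓜 : Finset (Fin m → ℤ), 𝓜 = A.filter fun μ => VGP N (R μ) := ⟨_, rfl⟩
  obtain ⟨WW, hWW⟩ : ∃ WW : Finset (Fin m → ℤ), WW =
    ((A ×ˢ A).filter fun p => p.1 ≠ p.2).image fun p => p.1 - p.2 := ⟨_, rfl⟩
  have hA0 : A.Nonempty := by
    rw [hA]
    exact Finsupp.support_nonempty_iff.2 hR0
  obtain ⟨δ, T₁, hδ, hbad⟩ := bad S hS (N := WW) (by
    intro ν hν
    rw [hWW, Finset.mem_image] at hν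
    obtain ⟨p, hp, rfl⟩ := hν
    exact sub_ne_zero.2 (Finset.mem_filter.1 hp).2) hη
  have hBm : 0 < B + m + 1 := by positivity
  obtain ⟨Z, C1, C2, hC1, hC2, hZ, hmain⟩ := gf_all S m hn N R hR hspl 𝓜 (by
    intro μ hμ
    rw [h𝓜, Finset.mem_filter] at hμ
    exact hμ.2) hε (δ := δ / (B + m + 1)) (by positivity)
  refine ⟨Z, C2, max T₁ 1, hZ, fun T hT => le_trans ?_ (hbad T ((le_max_left _ _).trans hT))⟩
  have hT1 : 1 ≤ T := (le_max_right _ _).trans hT
  have hT0 : 0 < T := by linarith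
  rw [Nat.cast_le]
  refine Finset.card_le_card fun u hu => ?_
  obtain ⟨huB, x, hx, hres, hxB, hoff, hlt⟩ := Finset.mem_filter.1 hu
  have hU := mem_Bx.1 huB
  have hu0 : ∀ i, u i ≠ 0 := fun i => (hU i).1.1
  refine Finset.mem_filter.2 ⟨huB, ?_⟩
  by_contra hcon
  push Not at hcon
  have hmaxv : ∀ v : Pl k, ∃ μ ∈ A, ∀ a ∈ A, dt (dir u v) a ≤ dt (dir u v) μ := fun v =>
    Finset.exists_max_image A (fun a => dt (dir u v) a) hA0
  choose μ hμA hμ using hmaxv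
  have hgap : ∀ v ∈ Sp S, ∀ a ∈ A, a ≠ μ v → dt (dir u v) a ≤ dt (dir u v) (μ v) - δ * T := by
    intro v hv a ha hne
    have h1 := hcon v hv (a - μ v) (by
      rw [hWW, Finset.mem_image]
      exact ⟨(a, μ v), Finset.mem_filter.2 ⟨Finset.mem_product.2 ⟨ha, hμA v⟩, hne⟩, rfl⟩)
    rw [dt_sub, abs_of_nonpos (sub_nonpos.2 (hμ v a ha))] at h1
    linarith
  have hc : δ / (B + m + 1) * (hs u + logHeight x) ≤ δ * T := by
    rw [div_mul_eq_mul_div, div_le_iff₀ hBm]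
    have h3 : hs u ≤ m * T := by
      unfold hs
      refine (Finset.sum_le_sum fun i _ => (hU i).2).trans ?_
      rw [Finset.sum_const, Finset.card_univ, Fintype.card_fin, nsmul_eq_mul]
    calc δ * (hs u + logHeight x) ≤ δ * ((B + m + 1) * T) :=
          mul_le_mul_of_nonneg_left (by nlinarith) hδ.le
      _ = δ * T * (B + m + 1) := by ring
  have hvertex : ∀ v ∈ Sp S, μ v ∈ 𝓜 := by
    intro v hv
    rw [h𝓜, Finset.mem_filter]
    refine ⟨hμA v, hvert (μ v) (hA ▸ hμA v) ⟨dir u v, fun a ha hne => ?_⟩⟩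
    have h1 := hgap v hv a (hA ▸ ha) hne
    have h2 : 0 < δ * T := mul_pos hδ hT0
    linarith
  have hex : ∀ i, ex (Sp S) (u i) = 0 := fun i =>
    Pool.Agent.N63.MT.ex_unit (Sp S) (hu0 i) fun v hv => by
      rcases v with v | v
      · exact absurd (mem_Sp_inl v) hv
      · exact (hU i).1.2 v fun h => hv (mem_Sp_inr.2 h)
  have h1 := hmain u x hx hu0 hres hoff (Sp S) μ (Finset.Subset.refl _) (by
    intro v hv
    refine ⟨hvertex v hv, fun e he hne => ?_⟩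
    rw [log_av_mono hu0, log_av_mono hu0]
    have h2 := hgap v hv e (hA ▸ he) hne
    linarith)
  have h2 : ∀ v ∈ Sp S, gfull R N (av v) u x = gterm R N (μ v) (av v) u x := by
    intro v hv
    unfold gfull gterm
    rw [gmx_eq R.support (av v) u (hA ▸ hμA v) (by
      intro a ha
      have h3 := hμ v a (hA ▸ ha)
      rw [← log_av_mono hu0, ← log_av_mono hu0] at h3
      exact (Real.log_le_log_iff ((av v).pos (mono_ne hu0 _)) ((av v).pos (mono_ne hu0 _))).1 h3)]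
  have h3 : ∑ v ∈ Sp S, wt v * gfull R N (av v) u x =
      ∑ v ∈ Sp S, wt v * gterm R N (μ v) (av v) u x :=
    Finset.sum_congr rfl fun v hv => by rw [h2 v hv]
  rw [h3] at hlt
  simp only [hex, Finset.sum_const_zero, mul_zero, add_zero] at h1
  linarith

end Pool.Agent.Run7.h489.GF
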